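import Pool.Graph.R_seed8.TH235.PP.Spec

/-!
# The Schmidt rank of PEPS vectors, and overlaps
-/

set_option autoImplicit false
set_option linter.unusedSectionVars false

open scoped BigOperators Matrix InnerProductSpace
open Finset Pool.Agent.TH235.PP

namespace Pool.Agent.H995.PS

section split

variable {E K : Type} (bd inn : E → Prop) [DecidablePred bd] [DecidablePred inn]

/-- glue three labellings -/
def glue (β : {e // bd e} → K) (a : {e // ¬ bd e ∧ inn e} → K)
    (r : {e // ¬ bd e ∧ ¬ inn e} → K) : E → K := fun e =>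
  if h : bd e then β ⟨e, h⟩ else if h2 : inn e then a ⟨e, h, h2⟩ else r ⟨e, h, h2⟩

/-- the corresponding equivalence -/
def glueEquiv : (E → K) ≃ ({e // bd e} → K) × (({e // ¬ bd e ∧ inn e} → K) ×
    ({e // ¬ bd e ∧ ¬ inn e} → K)) where
  toFun l := (fun e => l e, fun e => l e, fun e => l e)
  invFun x := glue bd inn x.1 x.2.1 x.2.2
  left_inv l := by
    funext e
    show (if h : bd e then l e else if h2 : inn e then l e else l e) = l e
    split_ifs <;> rfl
  right_inv x := by
    obtain ⟨β, a, r⟩ := x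
    refine Prod.ext ?_ (Prod.ext ?_ ?_)
    · funext e
      show glue bd inn β a r e = β e
      unfold glue
      rw [dif_pos e.2]
    · funext e
      show glue bd inn β a r e = a e
      unfold glue
      rw [dif_neg e.2.1, dif_pos e.2.2]
    · funext e
      show glue bd inn β a r e = r e
      unfold glue
      rw [dif_neg e.2.1, dif_neg e.2.2]

theorem split_sum [Fintype E] [DecidableEq E] [Fintype K] (k0 : K) (F G : (E → K) → ℂ)
    (hF : ∀ l l' : E → K, (∀ e, bd e ∨ inn e → l e = l' e) → F l = F l')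
    (hG : ∀ l l' : E → K, (∀ e, bd e ∨ ¬ inn e → l e = l' e) → G l = G l') :
    ∑ l : E → K, F l * G l = ∑ β : {e // bd e} → K,
      (∑ a, F (glue bd inn β a fun _ => k0)) * (∑ r, G (glue bd inn β (fun _ => k0) r)) := by
  have h1 : ∑ l : E → K, F l * G l = ∑ x : ({e // bd e} → K) × (({e // ¬ bd e ∧ inn e} → K) ×
      ({e // ¬ bd e ∧ ¬ inn e} → K)), F (glue bd inn x.1 x.2.1 x.2.2) *
        G (glue bd inn x.1 x.2.1 x.2.2) := by
    refine Fintype.sum_equiv (glueEquiv bd inn) _ _ fun l => ?_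
    have h2 : glue bd inn (glueEquiv bd inn l).1 (glueEquiv bd inn l).2.1
        (glueEquiv bd inn l).2.2 = l := (glueEquiv bd inn).left_inv l
    rw [h2]
  rw [h1, Fintype.sum_prod_type]
  refine sum_congr rfl fun β _ => ?_
  rw [Fintype.sum_prod_type, sum_mul_sum]
  refine sum_congr rfl fun a _ => sum_congr rfl fun r _ => ?_
  dsimp only
  congr 1
  · refine hF _ _ fun e he => ?_
    unfold glue
    by_cases h : bd e
    · rw [dif_pos h, dif_pos h]
    · rw [dif_neg h, dif_neg h]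
      have h3 : inn e := he.resolve_left h
      rw [dif_pos h3, dif_pos h3]
  · refine hG _ _ fun e he => ?_
    unfold glue
    by_cases h : bd e
    · rw [dif_pos h, dif_pos h]
    · rw [dif_neg h, dif_neg h]
      have h3 : ¬ inn e := he.resolve_left h
      rw [dif_neg h3, dif_neg h3]

end split

section torus

variable {L : ℕ} (B : Site L → Prop)

/-- the edges between `B` and its complement -/
def bd (e : Site L ⊕ Site L) : Prop :=
  match e with
  | .inl x => ¬ (B x ↔ B (x.1 + 1, x.2))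
  | .inr x => ¬ (B x ↔ B (x.1, x.2 + 1))

/-- the edges starting in `B` -/
def inn (e : Site L ⊕ Site L) : Prop :=
  match e with
  | .inl x => B x
  | .inr x => B x

theorem sub_add_self (x : Site L) : ((x.1 - 1, x.2).1 + 1, (x.1 - 1, x.2).2) = x := by
  simp

theorem sub_add_self' (x : Site L) : ((x.1, x.2 - 1).1, (x.1, x.2 - 1).2 + 1) = x := by
  simp

open Classical in
/-- A PEPS vector is a sum of `D ^ (number of edges between B and its complement)` products. -/
theorem schmidt [NeZero L] {d D : ℕ} {φ : (Site L → Fin d) → ℂ} (hφ : IsPEPS D φ) (N : ℕ)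
    (hN : Fintype.card {e : Site L ⊕ Site L // bd B e} ≤ N) :
    ∃ (K : Type) (_ : Fintype K) (P Q : K → (Site L → Fin d) → ℂ), Fintype.card K ≤ D ^ N ∧
      (∀ β s s', (∀ x, B x → s x = s' x) → P β s = P β s') ∧
      (∀ β s s', (∀ x, ¬ B x → s x = s' x) → Q β s = Q β s') ∧
      ∀ s, φ s = ∑ β, P β s * Q β s := by
  obtain ⟨A, hA⟩ := hφ
  rcases Nat.eq_zero_or_pos D with hD0 | hD0
  · subst hD0
    refine ⟨Empty, inferInstance, fun _ _ => 0, fun _ _ => 0, by simp, fun _ _ _ _ => rfl,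
      fun _ _ _ _ => rfl, fun s => ?_⟩
    rw [hA]
    unfold contract
    have : IsEmpty (Site L → Fin 0) := ⟨fun f => (f 0).elim0⟩
    rw [Fintype.sum_empty]
    simp
  let k0 : Fin D := ⟨0, hD0⟩
  let TT : Site L → Fin d → (Site L ⊕ Site L → Fin D) → ℂ := fun x a l =>
    A x a (l (.inl (x.1 - 1, x.2))) (l (.inl x)) (l (.inr (x.1, x.2 - 1))) (l (.inr x))
  let F : (Site L → Fin d) → (Site L ⊕ Site L → Fin D) → ℂ := fun s l =>
    ∏ x ∈ univ.filter B, TT x (s x) l
  let G : (Site L → Fin d) → (Site L ⊕ Site L → Fin D) → ℂ := fun s l =>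
    ∏ x ∈ univ.filter (fun x => ¬ B x), TT x (s x) l
  have hprod : ∀ s, φ s = ∑ l, F s l * G s l := by
    intro s
    rw [hA]
    unfold contract
    rw [← Fintype.sum_prod_type']
    refine Fintype.sum_equiv (Equiv.sumArrowEquivProdArrow (Site L) (Site L) (Fin D)).symm _ _
      fun l => ?_
    obtain ⟨h, v⟩ := l
    rw [← prod_filter_mul_prod_filter_not univ B]
    rfl
  have hF : ∀ s, ∀ l l' : Site L ⊕ Site L → Fin D, (∀ e, bd B e ∨ inn B e → l e = l' e) →
      F s l = F s l' := by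
    intro s l l' h
    refine prod_congr rfl fun x hx => ?_
    have hx' : B x := (mem_filter.1 hx).2
    have e1 : l (.inl (x.1 - 1, x.2)) = l' (.inl (x.1 - 1, x.2)) := by
      apply h
      by_cases hc : B (x.1 - 1, x.2)
      · exact Or.inr hc
      · left
        show ¬ (B (x.1 - 1, x.2) ↔ B ((x.1 - 1, x.2).1 + 1, (x.1 - 1, x.2).2))
        rw [sub_add_self]
        exact fun h => hc (h.2 hx')
    have e2 : l (.inl x) = l' (.inl x) := h _ (Or.inr hx')
    have e3 : l (.inr (x.1, x.2 - 1)) = l' (.inr (x.1, x.2 - 1)) := by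
      apply h
      by_cases hc : B (x.1, x.2 - 1)
      · exact Or.inr hc
      · left
        show ¬ (B (x.1, x.2 - 1) ↔ B ((x.1, x.2 - 1).1, (x.1, x.2 - 1).2 + 1))
        rw [sub_add_self']
        exact fun h => hc (h.2 hx')
    have e4 : l (.inr x) = l' (.inr x) := h _ (Or.inr hx')
    show A x _ _ _ _ _ = A x _ _ _ _ _
    rw [e1, e2, e3, e4]
  have hG : ∀ s, ∀ l l' : Site L ⊕ Site L → Fin D, (∀ e, bd B e ∨ ¬ inn B e → l e = l' e) →
      G s l = G s l' := by
    intro s l l' h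
    refine prod_congr rfl fun x hx => ?_
    have hx' : ¬ B x := (mem_filter.1 hx).2
    have e1 : l (.inl (x.1 - 1, x.2)) = l' (.inl (x.1 - 1, x.2)) := by
      apply h
      by_cases hc : B (x.1 - 1, x.2)
      · left
        show ¬ (B (x.1 - 1, x.2) ↔ B ((x.1 - 1, x.2).1 + 1, (x.1 - 1, x.2).2))
        rw [sub_add_self]
        exact fun h => hx' (h.1 hc)
      · exact Or.inr hc
    have e2 : l (.inl x) = l' (.inl x) := h _ (Or.inr hx')
    have e3 : l (.inr (x.1, x.2 - 1)) = l' (.inr (x.1, x.2 - 1)) := by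
      apply h
      by_cases hc : B (x.1, x.2 - 1)
      · left
        show ¬ (B (x.1, x.2 - 1) ↔ B ((x.1, x.2 - 1).1, (x.1, x.2 - 1).2 + 1))
        rw [sub_add_self']
        exact fun h => hx' (h.1 hc)
      · exact Or.inr hc
    have e4 : l (.inr x) = l' (.inr x) := h _ (Or.inr hx')
    show A x _ _ _ _ _ = A x _ _ _ _ _
    rw [e1, e2, e3, e4]
  refine ⟨{e : Site L ⊕ Site L // bd B e} → Fin D, inferInstance,
    fun β s => ∑ a, F s (glue (bd B) (inn B) β a fun _ => k0),
    fun β s => ∑ r, G s (glue (bd B) (inn B) β (fun _ => k0) r), ?_, ?_, ?_, ?_⟩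
  · rw [Fintype.card_fun, Fintype.card_fin]
    exact Nat.pow_le_pow_right hD0 hN
  · intro β s s' h
    refine sum_congr rfl fun a _ => prod_congr rfl fun x hx => ?_
    rw [h x (mem_filter.1 hx).2]
  · intro β s s' h
    refine sum_congr rfl fun r _ => prod_congr rfl fun x hx => ?_
    rw [h x (mem_filter.1 hx).2]
  · intro s
    rw [hprod]
    exact split_sum (bd B) (inn B) k0 (F s) (G s) (hF s) (hG s)

theorem edge_cases [NeZero L] {m : ℕ} (x : ZMod L) (h : ¬ (x.val < m ↔ (x + 1).val < m)) :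
    x = ((m - 1 : ℕ) : ZMod L) ∨ x = ((L - 1 : ℕ) : ZMod L) := by
  have hx : x.val < L := ZMod.val_lt x
  have hcast : x = ((x.val : ℕ) : ZMod L) := (ZMod.natCast_zmod_val x).symm
  have hs : (x + 1).val = (x.val + 1) % L := by
    rw [ZMod.val_add, ZMod.val_one_eq_one_mod, Nat.add_mod_mod]
  rw [hs] at h
  rcases Nat.lt_or_ge (x.val + 1) L with h1 | h1
  · rw [Nat.mod_eq_of_lt h1] at h
    left
    have h2 : x.val = m - 1 := by omega
    rw [← h2]
    exact hcast
  · right
    have h2 : x.val = L - 1 := by omega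
    rw [← h2]
    exact hcast

open Classical in
/-- A vertical strip has at most `2 L` boundary edges. -/
theorem card_strip [NeZero L] (m : ℕ) :
    Fintype.card {e : Site L ⊕ Site L // bd (fun x : Site L => x.1.val < m) e} ≤ 2 * L := by
  have h1 : Fintype.card {e : Site L ⊕ Site L // bd (fun x : Site L => x.1.val < m) e} ≤
      Fintype.card (Bool × ZMod L) := by
    have h2 : ∀ e : {e : Site L ⊕ Site L // bd (fun x : Site L => x.1.val < m) e},
        ∃ p : Bool × ZMod L, e.1 = .inl (if p.1 = true then (((m - 1 : ℕ) : ZMod L), p.2)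
          else (((L - 1 : ℕ) : ZMod L), p.2)) := by
      rintro ⟨e, he⟩
      rcases e with ⟨x, y⟩ | ⟨x, y⟩
      · rcases edge_cases x he with h | h
        · exact ⟨(true, y), by rw [if_pos rfl, ← h]⟩
        · exact ⟨(false, y), by rw [if_neg (by simp), ← h]⟩
      · exact absurd Iff.rfl he
    choose f hf using h2
    refine Fintype.card_le_of_injective f fun a b hab => ?_
    apply Subtype.ext
    rw [hf a, hf b, hab]
  refine h1.trans ?_
  rw [Fintype.card_prod, Fintype.card_bool, ZMod.card]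

end torus

/-- The trace of a matrix of small rank. -/
theorem trace_rank {A K : Type} [Fintype A] [DecidableEq A] [Fintype K] (P Q : K → A → ℂ) :
    ‖∑ a, ∑ β, P β a * Q β a‖ ^ 2 ≤
      (Fintype.card K : ℝ) * ∑ a, ∑ a', ‖∑ β, P β a' * Q β a‖ ^ 2 := by
  classical
  let v : K → EuclideanSpace ℂ A := fun β => WithLp.toLp 2 (P β)
  let U : Submodule ℂ (EuclideanSpace ℂ A) := Submodule.span ℂ (Set.range v)
  have hU : Module.finrank ℂ U ≤ Fintype.card K := finrank_range_le_card v
  let b := stdOrthonormalBasis ℂ U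
  have hmem : ∀ a : A, (∑ β, Q β a • v β) ∈ U := fun a =>
    U.sum_mem fun β _ => U.smul_mem _ (Submodule.subset_span ⟨β, rfl⟩)
  let M : A → U := fun a => ⟨∑ β, Q β a • v β, hmem a⟩
  have hM : ∀ a a' : A, (M a : EuclideanSpace ℂ A) a' = ∑ β, P β a' * Q β a := by
    intro a a'
    show (∑ β, Q β a • v β : EuclideanSpace ℂ A) a' = _
    rw [WithLp.ofLp_sum, Finset.sum_apply]
    refine sum_congr rfl fun β _ => ?_
    show Q β a * P β a' = _
    ring
  have hexp : ∀ a : A, (M a : EuclideanSpace ℂ A) a =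
      ∑ k, ⟪b k, M a⟫_ℂ * (b k : EuclideanSpace ℂ A) a := by
    intro a
    have h1 := congrArg (fun x : U => (x : EuclideanSpace ℂ A) a) (b.sum_repr' (M a))
    simp only at h1
    rw [← h1, Submodule.coe_sum, WithLp.ofLp_sum, Finset.sum_apply]
    refine sum_congr rfl fun k _ => ?_
    rfl
  have h1 : ∑ a, ∑ β, P β a * Q β a =
      ∑ p : A × Fin (Module.finrank ℂ U), ⟪b p.2, M p.1⟫_ℂ * (b p.2 : EuclideanSpace ℂ A) p.1 := by
    rw [Fintype.sum_prod_type]
    refine sum_congr rfl fun a _ => ?_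
    rw [← hM a a, hexp a]
  rw [h1]
  have h2 : ‖∑ p : A × Fin (Module.finrank ℂ U), ⟪b p.2, M p.1⟫_ℂ * (b p.2 : EuclideanSpace ℂ A) p.1‖ ^ 2
      ≤ (∑ p : A × Fin (Module.finrank ℂ U), ‖⟪b p.2, M p.1⟫_ℂ‖ ^ 2) *
        ∑ p : A × Fin (Module.finrank ℂ U), ‖(b p.2 : EuclideanSpace ℂ A) p.1‖ ^ 2 := by
    have h3 : ‖∑ p : A × Fin (Module.finrank ℂ U), ⟪b p.2, M p.1⟫_ℂ * (b p.2 : EuclideanSpace ℂ A) p.1‖
        ≤ ∑ p : A × Fin (Module.finrank ℂ U), ‖⟪b p.2, M p.1⟫_ℂ‖ * ‖(b p.2 : EuclideanSpace ℂ A) p.1‖ := by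
      refine (norm_sum_le _ _).trans (le_of_eq ?_)
      exact sum_congr rfl fun p _ => norm_mul _ _
    exact (pow_le_pow_left₀ (norm_nonneg _) h3 2).trans (sum_mul_sq_le_sq_mul_sq _ _ _)
  have h4 : ∑ p : A × Fin (Module.finrank ℂ U), ‖⟪b p.2, M p.1⟫_ℂ‖ ^ 2 =
      ∑ a, ∑ a', ‖∑ β, P β a' * Q β a‖ ^ 2 := by
    rw [Fintype.sum_prod_type]
    refine sum_congr rfl fun a _ => ?_
    rw [b.sum_sq_norm_inner_right (M a)]
    have : ‖M a‖ = ‖(M a : EuclideanSpace ℂ A)‖ := rfl
    rw [this, EuclideanSpace.norm_sq_eq]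
    exact sum_congr rfl fun a' _ => by rw [hM]
  have h5 : ∑ p : A × Fin (Module.finrank ℂ U), ‖(b p.2 : EuclideanSpace ℂ A) p.1‖ ^ 2 =
      Module.finrank ℂ U := by
    rw [Fintype.sum_prod_type_right]
    have : ∀ k, ∑ a, ‖(b k : EuclideanSpace ℂ A) a‖ ^ 2 = 1 := by
      intro k
      rw [← EuclideanSpace.norm_sq_eq]
      have h6 : ‖(b k : EuclideanSpace ℂ A)‖ = 1 := b.norm_eq_one k
      rw [h6, one_pow]
    simp only [this]
    simp
  rw [h4, h5] at h2
  refine h2.trans ?_
  rw [mul_comm]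
  refine mul_le_mul_of_nonneg_right ?_ (by positivity)
  exact_mod_cast hU

end Pool.Agent.H995.PS
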