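import Pool.Agent.H995.PS.Ham
import Pool.Agent.H995.PS.Cut

/-!
# Low-lying eigenvectors far from all PEPS
-/

set_option autoImplicit false
set_option linter.unusedSectionVars false

open scoped BigOperators Matrix
open Finset Pool.Agent.TH235.PP

namespace Pool.Agent.H995.PS

variable {q L : ℕ} [NeZero L]

/-- labellings of the left strip -/
abbrev Strip (q L : ℕ) : Type := {x : Site L // x.1.val < L / 2} → Fin q

/-- the site in the left strip corresponding to a site in the right strip -/
def back (x : Site L) : Site L := (x.1 - ((L / 2 : ℕ) : ZMod L), x.2)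

theorem back_val {x : Site L} (h1 : ¬ x.1.val < L / 2) (h2 : x.1.val < L / 2 + L / 2) :
    (back x).1.val < L / 2 := by
  unfold back
  have hL : 0 < L := Nat.pos_of_ne_zero (NeZero.ne L)
  have h3 : ((L / 2 : ℕ) : ZMod L).val = L / 2 := ZMod.val_natCast_of_lt (by omega)
  have h4 : (x.1 - ((L / 2 : ℕ) : ZMod L)).val = x.1.val - L / 2 := by
    rw [ZMod.val_sub]
    · rw [h3]
    · rw [h3]; omega
  rw [h4]
  omega

/-- the labelling of the torus with given labels of the two strips -/
def two (k : Fin q) (a a' : Strip q L) : Site L → Fin q := fun x =>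
  if h : x.1.val < L / 2 then a ⟨x, h⟩
  else if h' : x.1.val < L / 2 + L / 2 then a' ⟨back x, back_val h h'⟩
  else k

theorem two_left (k : Fin q) (a a' : Strip q L) (x : Site L) (h : x.1.val < L / 2) :
    two k a a' x = a ⟨x, h⟩ := by
  unfold two
  rw [dif_pos h]

/-- the site in the right strip corresponding to a site in the left strip -/
theorem two_right (k : Fin q) (a a' : Strip q L) (x : Site L) (h : x.1.val < L / 2) :
    two k a a' (x.1 + ((L / 2 : ℕ) : ZMod L), x.2) = a' ⟨x, h⟩ := by
  have hL : 0 < L := Nat.pos_of_ne_zero (NeZero.ne L)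
  have h3 : ((L / 2 : ℕ) : ZMod L).val = L / 2 := ZMod.val_natCast_of_lt (by omega)
  have h4 : (x.1 + ((L / 2 : ℕ) : ZMod L)).val = x.1.val + L / 2 := by
    rw [ZMod.val_add_of_lt]
    · rw [h3]
    · rw [h3]; omega
  unfold two
  have h5 : ¬ (x.1 + ((L / 2 : ℕ) : ZMod L)).val < L / 2 := by rw [h4]; omega
  have h6 : (x.1 + ((L / 2 : ℕ) : ZMod L)).val < L / 2 + L / 2 := by rw [h4]; omega
  rw [dif_neg h5, dif_pos h6]
  congr 1
  apply Subtype.ext
  show (x.1 + ((L / 2 : ℕ) : ZMod L) - ((L / 2 : ℕ) : ZMod L), x.2) = x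
  rw [add_sub_cancel_right]

theorem card_strip_sites : Fintype.card {x : Site L // x.1.val < L / 2} = L * (L / 2) := by
  classical
  have h1 : Fintype.card {x : Site L // x.1.val < L / 2} =
      Fintype.card ({x : ZMod L // x.val < L / 2} × ZMod L) := by
    refine Fintype.card_congr ⟨fun x => (⟨x.1.1, x.2⟩, x.1.2), fun p => ⟨(p.1.1, p.2), p.1.2⟩,
      fun x => rfl, fun p => rfl⟩
  rw [h1, Fintype.card_prod, ZMod.card, mul_comm]
  congr 1
  have hL : 0 < L := Nat.pos_of_ne_zero (NeZero.ne L)
  have h2 : Fintype.card {x : ZMod L // x.val < L / 2} = Fintype.card (Fin (L / 2)) := by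
    refine Fintype.card_congr ⟨fun x => ⟨x.1.val, x.2⟩,
      fun i => ⟨((i : ℕ) : ZMod L), by rw [ZMod.val_natCast_of_lt (by omega)]; exact i.2⟩,
      fun x => ?_, fun i => ?_⟩
    · apply Subtype.ext
      exact ZMod.natCast_zmod_val x.1
    · apply Fin.ext
      show ((i : ℕ) : ZMod L).val = i
      exact ZMod.val_natCast_of_lt (by omega)
  rw [h2, Fintype.card_fin]

theorem card_Strip : Fintype.card (Strip q L) = q ^ (L * (L / 2)) := by
  rw [Fintype.card_fun, Fintype.card_fin, card_strip_sites]

/-- configuration of numbers -/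
noncomputable def conf (t : Site L → Tile) (k : Fin q) (a a' : Strip q L) :
    Site L → Fin (nt * q + 1) := cod (lab t (two k a a'))

theorem conf_inj (t : Site L → Tile) (k : Fin q) {a a' b b' : Strip q L}
    (h : conf t k a a' = conf t k b b') : a = b ∧ a' = b' := by
  have h1 : lab t (two k a a') = lab t (two k b b') := by
    rw [← dec_cod (lab t (two k a a')), ← dec_cod (lab t (two k b b'))]
    exact congrArg dec h
  have h2 : two k a a' = two k b b' := by
    funext u
    have h5 := congrFun h1 u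
    unfold lab at h5
    exact congrArg Prod.snd (Option.some.inj h5)
  constructor
  · funext x
    rw [← two_left k a a' x.1 x.2, h2, two_left]
  · funext x
    rw [← two_right k a a' x.1 x.2, h2, two_right]

/-- The vector: the labels of the two strips are maximally entangled. -/
noncomputable def ent (t : Site L → Tile) (k : Fin q) : (Site L → Fin (nt * q + 1)) → ℂ := fun s =>
  ((Real.sqrt (Fintype.card (Strip q L)))⁻¹ : ℝ) *
    ∑ a : Strip q L, (Pi.single (conf t k a a) (1 : ℂ) : (Site L → Fin (nt * q + 1)) → ℂ) s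

theorem ent_ip (t : Site L → Tile) (k : Fin q) (φ : (Site L → Fin (nt * q + 1)) → ℂ) :
    ip φ (ent t k) = ((Real.sqrt (Fintype.card (Strip q L)))⁻¹ : ℝ) *
      ∑ a : Strip q L, (starRingEnd ℂ) (φ (conf t k a a)) := by
  classical
  unfold ip ent
  have h1 : ∀ s, (starRingEnd ℂ) (φ s) * ((((Real.sqrt (Fintype.card (Strip q L)))⁻¹ : ℝ) : ℂ) *
      ∑ a : Strip q L, (Pi.single (conf t k a a) (1 : ℂ) : (Site L → Fin (nt * q + 1)) → ℂ) s) =
      (((Real.sqrt (Fintype.card (Strip q L)))⁻¹ : ℝ) : ℂ) * ∑ a : Strip q L,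
        (if s = conf t k a a then (starRingEnd ℂ) (φ s) else 0) := by
    intro s
    rw [mul_left_comm, mul_sum]
    congr 1
    refine sum_congr rfl fun a _ => ?_
    rw [Pi.single_apply]
    split_ifs <;> simp
  simp only [h1]
  rw [← mul_sum]
  congr 1
  rw [sum_comm]
  refine sum_congr rfl fun a _ => ?_
  rw [sum_ite_eq' univ (conf t k a a) (fun s => (starRingEnd ℂ) (φ s)), if_pos (mem_univ _)]

theorem card_pos (k : Fin q) : (0 : ℝ) < Fintype.card (Strip q L) := by
  have : Nonempty (Strip q L) := ⟨fun _ => k⟩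
  exact_mod_cast Fintype.card_pos

theorem ent_norm (t : Site L → Tile) (k : Fin q) : normSq (ent t k) = 1 := by
  classical
  have h0 := ent_ip t k (ent t k)
  have h1 : ∀ a : Strip q L, ent t k (conf t k a a) =
      (((Real.sqrt (Fintype.card (Strip q L)))⁻¹ : ℝ) : ℂ) := by
    intro a
    unfold ent
    rw [sum_eq_single a]
    · rw [Pi.single_eq_same, mul_one]
    · intro b _ hb
      rw [Pi.single_eq_of_ne]
      intro h
      exact hb (conf_inj t k h).1.symm
    · intro h; exact absurd (mem_univ _) h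
  simp only [h1] at h0
  have h2 : ip (ent t k) (ent t k) = (normSq (ent t k) : ℂ) := by
    unfold ip normSq
    rw [Complex.ofReal_sum]
    refine sum_congr rfl fun s _ => ?_
    rw [mul_comm, Complex.mul_conj, Complex.normSq_eq_norm_sq]
  rw [h2, sum_const, card_univ, Complex.conj_ofReal, nsmul_eq_mul] at h0
  have hp := card_pos (L := L) k
  have h3 : normSq (ent t k) = (Real.sqrt (Fintype.card (Strip q L)))⁻¹ *
      ((Fintype.card (Strip q L) : ℝ) * (Real.sqrt (Fintype.card (Strip q L)))⁻¹) := by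
    exact_mod_cast h0
  rw [h3]
  have h4 : Real.sqrt (Fintype.card (Strip q L) : ℝ) * Real.sqrt (Fintype.card (Strip q L) : ℝ) =
      Fintype.card (Strip q L) := Real.mul_self_sqrt hp.le
  have h5 : Real.sqrt (Fintype.card (Strip q L) : ℝ) ≠ 0 := (Real.sqrt_pos.2 hp).ne'
  generalize Real.sqrt (Fintype.card (Strip q L) : ℝ) = x at *
  rw [← h4]
  field_simp

theorem ent_eig (t : Site L → Tile) (k : Fin q) :
    ham (hq q) L *ᵥ ent t k = ((defects t : ℕ) : ℂ) • ent t k := by
  classical
  funext s
  rw [ham_mulVec, Pi.smul_apply, smul_eq_mul]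
  by_cases h : ∃ a, s = conf t k a a
  · obtain ⟨a, rfl⟩ := h
    have : dec (conf t k a a) = lab t (two k a a) := dec_cod _
    rw [this, en_lab]
  · have : ent t k s = 0 := by
      unfold ent
      rw [sum_eq_zero, mul_zero]
      intro a _
      rw [Pi.single_eq_of_ne]
      exact fun hh => h ⟨a, hh⟩
    rw [this, mul_zero, mul_zero]

/-- The overlap with PEPS. -/
theorem ent_peps (t : Site L → Tile) (k : Fin q) {D : ℕ} {φ : (Site L → Fin (nt * q + 1)) → ℂ}
    (hφ : IsPEPS D φ) :
    ‖ip φ (ent t k)‖ ^ 2 * (q : ℝ) ^ (L * (L / 2)) ≤ (D : ℝ) ^ (2 * L) * normSq φ := by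
  classical
  obtain ⟨K, _, P, Q, hK, hP, hQ, hs⟩ :=
    schmidt (fun x : Site L => x.1.val < L / 2) hφ (2 * L) (by
      convert card_strip (L := L) (L / 2))
  have a₀ : Strip q L := fun _ => k
  let P' : K → Strip q L → ℂ := fun β a => P β (conf t k a a₀)
  let Q' : K → Strip q L → ℂ := fun β a => Q β (conf t k a₀ a)
  have hM : ∀ a a', φ (conf t k a a') = ∑ β, P' β a * Q' β a' := by
    intro a a'
    rw [hs]
    refine sum_congr rfl fun β _ => ?_
    congr 1
    · apply hP
      intro x hx
      unfold conf cod lab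
      rw [two_left k a a' x hx, two_left k a a₀ x hx]
    · apply hQ
      intro x hx
      unfold conf cod lab two
      rw [dif_neg hx, dif_neg hx]
  have h1 := trace_rank P' Q'
  simp only [← hM] at h1
  have h2 : ∑ a : Strip q L, ∑ a' : Strip q L, ‖φ (conf t k a' a)‖ ^ 2 ≤ normSq φ := by
    rw [← Fintype.sum_prod_type' (f := fun a a' : Strip q L => ‖φ (conf t k a' a)‖ ^ 2)]
    unfold normSq
    have hinj : Function.Injective (fun p : Strip q L × Strip q L => conf t k p.2 p.1) := by
      intro p p' h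
      have := conf_inj t k h
      exact Prod.ext this.2 this.1
    rw [← sum_image (s := (univ : Finset (Strip q L × Strip q L)))
      (g := fun p : Strip q L × Strip q L => conf t k p.2 p.1) (f := fun s => ‖φ s‖ ^ 2)
      (fun p _ p' _ h => hinj h)]
    exact sum_le_sum_of_subset_of_nonneg (subset_univ _) fun _ _ _ => by positivity
  have hp := card_pos (L := L) k
  have h3 : ‖ip φ (ent t k)‖ ^ 2 = (Fintype.card (Strip q L) : ℝ)⁻¹ *
      ‖∑ a, φ (conf t k a a)‖ ^ 2 := by
    rw [ent_ip, norm_mul, mul_pow, ← map_sum, RCLike.norm_conj, Complex.norm_real,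
      Real.norm_eq_abs, sq_abs, inv_pow, Real.sq_sqrt hp.le]
  have h4 : (q : ℝ) ^ (L * (L / 2)) = Fintype.card (Strip q L) := by
    rw [card_Strip]; push_cast; rfl
  rw [h3, h4, mul_right_comm, inv_mul_cancel₀ hp.ne', one_mul]
  refine h1.trans ?_
  have h5 : (Fintype.card K : ℝ) ≤ (D : ℝ) ^ (2 * L) := by exact_mod_cast hK
  refine mul_le_mul h5 h2 ?_ (by positivity)
  exact sum_nonneg fun _ _ => sum_nonneg fun _ _ => by positivity

end Pool.Agent.H995.PS
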