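import Pool.Agent.H995.PS.Seed

/-!
# The full set of tiles, with transparent columns and rows
-/

set_option autoImplicit false
set_option linter.unusedSectionVars false

namespace Pool.Agent.H995.PS

/-- colours with position bits -/
abbrev HC : Type := Bool × Bool × Q

/-- edge colours of the full set -/
abbrev FE : Type := Option HC × Bool

/-- the tiles with position bits -/
def WT (L R D U : HC) : Prop :=
  ∃ (a b : Bool) (l r d u : Q), L = (!a, b, l) ∧ R = (a, b, r) ∧ D = (a, !b, d) ∧ U = (a, b, u) ∧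
    Ok a b l r d u

/-- The full set: the tiles, transparent columns, transparent rows and their crossings. -/
def FT (L R D U : FE) : Prop :=
  (∃ (l r d u : HC) (x y : Bool), L = (some l, x) ∧ R = (some r, false) ∧ D = (some d, y) ∧
    U = (some u, false) ∧ WT l r d u) ∨
  (∃ (l : HC) (y : Bool), L = (some l, false) ∧ R = (some l, true) ∧ D = (none, y) ∧
    U = (none, false)) ∨
  (∃ (d : HC) (x : Bool), L = (none, x) ∧ R = (none, false) ∧ D = (some d, false) ∧
    U = (some d, true)) ∨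
  (L = (none, false) ∧ R = (none, true) ∧ D = (none, false) ∧ U = (none, true))

/-- A tiling by the full set of tiles. -/
structure FTiling (Z : Type) (s r : Z → Z) where
  L : Z → FE
  R : Z → FE
  D : Z → FE
  U : Z → FE
  ok : ∀ z, FT (L z) (R z) (D z) (U z)
  h : ∀ z, R z = L (s z)
  v : ∀ z, U z = D (r z)

namespace FTiling

variable {Z : Type} {s r : Z → Z} (T : FTiling Z s r) (hc : ∀ z, s (r z) = r (s z))

/-- transparent column -/
def dc (z : Z) : Bool := (T.R z).2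
/-- transparent row -/
def dr (z : Z) : Bool := (T.U z).2

theorem normal {z : Z} (h1 : T.dc z = false) (h2 : T.dr z = false) :
    ∃ l r d u : HC, (T.L z).1 = some l ∧ (T.R z).1 = some r ∧ (T.D z).1 = some d ∧
      (T.U z).1 = some u ∧ WT l r d u := by
  unfold dc at h1
  unfold dr at h2
  rcases T.ok z with ⟨l, r, d, u, x, y, a1, a2, a3, a4, a5⟩ | ⟨l, y, a1, a2, a3, a4⟩ |
    ⟨d, x, a1, a2, a3, a4⟩ | ⟨a1, a2, a3, a4⟩
  · exact ⟨l, r, d, u, by rw [a1], by rw [a2], by rw [a3], by rw [a4], a5⟩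
  · rw [a2] at h1; exact absurd h1 (by simp)
  · rw [a4] at h2; exact absurd h2 (by simp)
  · rw [a2] at h1; exact absurd h1 (by simp)

theorem passH {z : Z} (h1 : T.dc z = true) (h2 : T.dr z = false) :
    (T.L z).1 = (T.R z).1 := by
  unfold dc at h1
  unfold dr at h2
  rcases T.ok z with ⟨l, r, d, u, x, y, a1, a2, a3, a4, a5⟩ | ⟨l, y, a1, a2, a3, a4⟩ |
    ⟨d, x, a1, a2, a3, a4⟩ | ⟨a1, a2, a3, a4⟩
  · rw [a2] at h1; exact absurd h1 (by simp)
  · rw [a1, a2]
  · rw [a4] at h2; exact absurd h2 (by simp)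
  · rw [a4] at h2; exact absurd h2 (by simp)

theorem passV {z : Z} (h1 : T.dc z = false) (h2 : T.dr z = true) :
    (T.D z).1 = (T.U z).1 := by
  unfold dc at h1
  unfold dr at h2
  rcases T.ok z with ⟨l, r, d, u, x, y, a1, a2, a3, a4, a5⟩ | ⟨l, y, a1, a2, a3, a4⟩ |
    ⟨d, x, a1, a2, a3, a4⟩ | ⟨a1, a2, a3, a4⟩
  · rw [a4] at h2; exact absurd h2 (by simp)
  · rw [a2] at h1; exact absurd h1 (by simp)
  · rw [a3, a4]
  · rw [a2] at h1; exact absurd h1 (by simp)

theorem flags (z : Z) : ((T.L z).1 = none ↔ T.dr z = true) ∧ ((T.R z).1 = none ↔ T.dr z = true) ∧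
    ((T.D z).1 = none ↔ T.dc z = true) ∧ ((T.U z).1 = none ↔ T.dc z = true) ∧
    (T.dc z = true → (T.L z).2 = false) ∧ (T.dr z = true → (T.D z).2 = false) := by
  unfold dc dr
  rcases T.ok z with ⟨l, r, d, u, x, y, a1, a2, a3, a4, a5⟩ | ⟨l, y, a1, a2, a3, a4⟩ |
    ⟨d, x, a1, a2, a3, a4⟩ | ⟨a1, a2, a3, a4⟩ <;> rw [a1, a2, a3, a4] <;> simp

theorem dr_s (z : Z) : T.dr (s z) = T.dr z := by
  have h1 := (T.flags z).2.1
  have h2 := (T.flags (s z)).1
  rw [← T.h z] at h2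
  rw [Bool.eq_iff_iff]
  exact h2.symm.trans h1

theorem dc_r (z : Z) : T.dc (r z) = T.dc z := by
  have h1 := (T.flags z).2.2.2.1
  have h2 := (T.flags (r z)).2.2.1
  rw [← T.v z] at h2
  rw [Bool.eq_iff_iff]
  exact h2.symm.trans h1

theorem dc_s {z : Z} (h1 : T.dc (s z) = true) : T.dc z = false := by
  have h2 := (T.flags (s z)).2.2.2.2.1 h1
  rw [← T.h z] at h2
  exact h2

theorem dr_r {z : Z} (h1 : T.dr (r z) = true) : T.dr z = false := by
  have h2 := (T.flags (r z)).2.2.2.2.2 h1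
  rw [← T.v z] at h2
  exact h2

/-- next column -/
def S (z : Z) : Z := if T.dc (s z) = true then s (s z) else s z
/-- next row -/
def P (z : Z) : Z := if T.dr (r z) = true then r (r z) else r z

theorem dr_S (z : Z) : T.dr (T.S z) = T.dr z := by
  unfold S
  split_ifs
  · rw [T.dr_s, T.dr_s]
  · rw [T.dr_s]

theorem dc_P (z : Z) : T.dc (T.P z) = T.dc z := by
  unfold P
  split_ifs
  · rw [T.dc_r, T.dc_r]
  · rw [T.dc_r]

theorem dc_S (z : Z) : T.dc (T.S z) = false := by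
  unfold S
  split_ifs with h
  · by_contra hcon
    have h2 := T.dc_s (z := s z) ((Bool.not_eq_false _).mp hcon)
    rw [h] at h2
    exact absurd h2 (by decide)
  · exact (Bool.not_eq_true _).mp h

theorem dr_P (z : Z) : T.dr (T.P z) = false := by
  unfold P
  split_ifs with h
  · by_contra hcon
    have h2 := T.dr_r (z := r z) ((Bool.not_eq_false _).mp hcon)
    rw [h] at h2
    exact absurd h2 (by decide)
  · exact (Bool.not_eq_true _).mp h

include hc in
theorem SP (z : Z) : T.S (T.P z) = T.P (T.S z) := by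
  have h1 : T.dc (s (T.P z)) = T.dc (s z) := by
    unfold P
    split_ifs
    · rw [hc, hc, T.dc_r, T.dc_r]
    · rw [hc, T.dc_r]
  have h2 : T.dr (r (T.S z)) = T.dr (r z) := by
    unfold S
    split_ifs
    · rw [← hc, ← hc, T.dr_s, T.dr_s]
    · rw [← hc, T.dr_s]
  have e1 : T.S (T.P z) = if T.dc (s (T.P z)) = true then s (s (T.P z)) else s (T.P z) := rfl
  have e2 : T.P (T.S z) = if T.dr (r (T.S z)) = true then r (r (T.S z)) else r (T.S z) := rfl
  rw [e1, e2, h1, h2]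
  unfold S P
  split_ifs
  · rw [hc, hc, hc, hc]
  · rw [hc, hc]
  · rw [hc, hc]
  · rw [hc]

theorem L_S {z : Z} (h2 : T.dr z = false) : (T.L (T.S z)).1 = (T.R z).1 := by
  unfold S
  split_ifs with h
  · rw [← T.h (s z), T.h z]
    exact (T.passH h (by rw [T.dr_s, h2])).symm
  · rw [T.h z]

theorem D_P {z : Z} (h1 : T.dc z = false) : (T.D (T.P z)).1 = (T.U z).1 := by
  unfold P
  split_ifs with h
  · rw [← T.v (r z), T.v z]
    exact (T.passV (by rw [T.dc_r, h1]) h).symm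
  · rw [T.v z]

/-- colour with a default value -/
def gc (x : FE) : HC := x.1.getD (false, false, (0, false))

/-- the shape of a normal tile -/
theorem shape {z : Z} (h1 : T.dc z = false) (h2 : T.dr z = false) :
    (T.R z).1 = some (gc (T.R z)) ∧ (T.U z).1 = some ((gc (T.R z)).1, (gc (T.R z)).2.1, (gc (T.U z)).2.2) ∧
    ∃ l d : Q, (T.L z).1 = some (!(gc (T.R z)).1, (gc (T.R z)).2.1, l) ∧
      (T.D z).1 = some ((gc (T.R z)).1, !(gc (T.R z)).2.1, d) ∧
      Ok (gc (T.R z)).1 (gc (T.R z)).2.1 l (gc (T.R z)).2.2 d (gc (T.U z)).2.2 := by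
  obtain ⟨l, r', d, u, a1, a2, a3, a4, a, b, l', r'', d', u', b1, b2, b3, b4, b5⟩ := T.normal h1 h2
  have e1 : gc (T.R z) = (a, b, r'') := by unfold gc; rw [a2, b2]; rfl
  have e2 : gc (T.U z) = (a, b, u') := by unfold gc; rw [a4, b4]; rfl
  rw [e1, e2]
  exact ⟨by rw [a2, b2], by rw [a4, b4], l', d', by rw [a1, b1], by rw [a3, b3], b5⟩

theorem stepS {z : Z} (h1 : T.dc z = false) (h2 : T.dr z = false) :
    (gc (T.R (T.S z))).1 = !(gc (T.R z)).1 ∧ (gc (T.R (T.S z))).2.1 = (gc (T.R z)).2.1 ∧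
      (T.L (T.S z)).1 = some (!(gc (T.R (T.S z))).1, (gc (T.R (T.S z))).2.1, (gc (T.R z)).2.2) := by
  obtain ⟨a1, _, _⟩ := T.shape h1 h2
  obtain ⟨_, _, l, d, b3, _⟩ := T.shape (T.dc_S z) ((T.dr_S z).trans h2)
  have h3 := T.L_S h2
  rw [a1, b3] at h3
  have h4 := Option.some.inj h3
  have e1 := congrArg Prod.fst h4
  have e2 := congrArg (fun x => x.2.1) h4
  have e3 := congrArg (fun x => x.2.2) h4
  simp only at e1 e2 e3
  refine ⟨by rw [← e1, Bool.not_not], e2, ?_⟩
  rw [b3, e3]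

theorem stepP {z : Z} (h1 : T.dc z = false) (h2 : T.dr z = false) :
    (gc (T.R (T.P z))).1 = (gc (T.R z)).1 ∧ (gc (T.R (T.P z))).2.1 = !(gc (T.R z)).2.1 ∧
      (T.D (T.P z)).1 = some ((gc (T.R (T.P z))).1, !(gc (T.R (T.P z))).2.1, (gc (T.U z)).2.2) := by
  obtain ⟨_, a1, _⟩ := T.shape h1 h2
  obtain ⟨_, _, l, d, _, b3, _⟩ := T.shape ((T.dc_P z).trans h1) (T.dr_P z)
  have h3 := T.D_P h1
  rw [a1, b3] at h3
  have h4 := Option.some.inj h3
  have e1 := congrArg Prod.fst h4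
  have e2 := congrArg (fun x => x.2.1) h4
  have e3 := congrArg (fun x => x.2.2) h4
  simp only at e1 e2 e3
  refine ⟨e1, by rw [← e2, Bool.not_not], ?_⟩
  rw [b3, e3]

/-- the tiling without the transparent columns and rows -/
def inner : Tiling {z : Z // T.dc z = false ∧ T.dr z = false}
    (fun z => ⟨T.S z.1, T.dc_S z.1, (T.dr_S z.1).trans z.2.2⟩)
    (fun z => ⟨T.P z.1, (T.dc_P z.1).trans z.2.1, T.dr_P z.1⟩) where
  a z := (gc (T.R z.1)).1
  b z := (gc (T.R z.1)).2.1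
  H z := (gc (T.R z.1)).2.2
  V z := (gc (T.U z.1)).2.2
  as z := (T.stepS z.2.1 z.2.2).1
  ar z := (T.stepP z.2.1 z.2.2).1
  br z := (T.stepP z.2.1 z.2.2).2.1
  bs z := (T.stepS z.2.1 z.2.2).2.1
  ok z := by
    obtain ⟨z, hz⟩ := z
    show Ok (gc (T.R (T.S (T.P z)))).1 (gc (T.R (T.S (T.P z)))).2.1 (gc (T.R (T.P z))).2.2
      (gc (T.R (T.S (T.P z)))).2.2 (gc (T.U (T.S z))).2.2 (gc (T.U (T.S (T.P z)))).2.2
    have p1 : T.dc (T.P z) = false := (T.dc_P z).trans hz.1
    have p2 : T.dr (T.P z) = false := T.dr_P z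
    have q1 : T.dc (T.S z) = false := T.dc_S z
    have q2 : T.dr (T.S z) = false := (T.dr_S z).trans hz.2
    obtain ⟨_, _, l, d, b3, b4, b5⟩ := T.shape (T.dc_S (T.P z)) ((T.dr_S (T.P z)).trans p2)
    have h3 := (T.stepS p1 p2).2.2
    have h4 := (T.stepP q1 q2).2.2
    rw [b3] at h3
    rw [← T.SP hc z, b4] at h4
    have e3 := congrArg (fun x => x.2.2) (Option.some.inj h3)
    have e4 := congrArg (fun x => x.2.2) (Option.some.inj h4)
    simp only at e3 e4
    rw [e3, e4] at b5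
    exact b5

end FTiling

/-- There is no tiling by the full set. -/
theorem no_ftiling {Z : Type} [Finite Z] [Nonempty Z] (s r : Z → Z) (hc : ∀ z, s (r z) = r (s z))
    (T : FTiling Z s r) : False := by
  classical
  have := Fintype.ofFinite Z
  obtain ⟨z₀⟩ := ‹Nonempty Z›
  have z₁ : {z : Z // T.dc z = false ∧ T.dr z = false} :=
    ⟨T.P (T.S z₀), by rw [T.dc_P, T.dc_S], T.dr_P _⟩
  refine no_tiling _ {z : Z // T.dc z = false ∧ T.dr z = false} rfl ⟨z₁⟩ _ _ ?_ (T.inner hc)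
  rintro ⟨z, hz⟩
  apply Subtype.ext
  exact T.SP hc z

end Pool.Agent.H995.PS
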