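import Pool.Agent.H995.PS.Torus
import Pool.Graph.R_seed8.TH235.PP.Spec

/-!
# The classical Hamiltonian
-/

set_option autoImplicit false
set_option linter.unusedSectionVars false

open scoped BigOperators Matrix
open Finset Pool.Agent.TH235.PP

namespace Pool.Agent.H995.PS

/-- The states of a site: `none`, or a tile and a free label. -/
abbrev Sym (q : ℕ) : Type := Option (Tile × Fin q)

open Classical in
/-- energy of a horizontal pair -/
noncomputable def eh {q : ℕ} : Sym q → Sym q → ℕ
  | none, none => 0
  | none, some _ => 5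
  | some _, none => 5
  | some a, some b => if a.1.ri = b.1.le then 0 else 1

open Classical in
/-- energy of a vertical pair -/
noncomputable def ev {q : ℕ} : Sym q → Sym q → ℕ
  | none, none => 0
  | none, some _ => 5
  | some _, none => 5
  | some a, some b => if a.1.up = b.1.dn then 0 else 1

theorem eh_le {q : ℕ} (a b : Sym q) : eh a b ≤ 5 := by
  cases a <;> cases b <;> simp only [eh]
  · omega
  · omega
  · omega
  · split_ifs <;> omega

theorem ev_le {q : ℕ} (a b : Sym q) : ev a b ≤ 5 := by
  cases a <;> cases b <;> simp only [ev]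
  · omega
  · omega
  · omega
  · split_ifs <;> omega

/-- energy of a configuration -/
noncomputable def en {q L : ℕ} [NeZero L] (c : Site L → Sym q) : ℕ :=
  ∑ u : Site L, (eh (c u) (c (u.1 + 1, u.2)) + ev (c u) (c (u.1, u.2 + 1)))

variable {q L : ℕ} [NeZero L]

theorem en_none : en (fun _ : Site L => (none : Sym q)) = 0 :=
  sum_eq_zero fun _ _ => rfl

theorem eh_lt {a b : Sym q} (h : eh a b < 5) : (a = none ↔ b = none) := by
  cases a <;> cases b <;> simp [eh] at h ⊢

theorem ev_lt {a b : Sym q} (h : ev a b < 5) : (a = none ↔ b = none) := by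
  cases a <;> cases b <;> simp [ev] at h ⊢

theorem all_or (c : Site L → Sym q) (h : en c < 5) : (∀ u, c u = none) ∨ ∀ u, c u ≠ none := by
  have h1 : ∀ u : Site L, eh (c u) (c (u.1 + 1, u.2)) + ev (c u) (c (u.1, u.2 + 1)) < 5 := by
    intro u
    refine lt_of_le_of_lt ?_ h
    exact single_le_sum (f := fun u : Site L =>
      eh (c u) (c (u.1 + 1, u.2)) + ev (c u) (c (u.1, u.2 + 1))) (fun _ _ => Nat.zero_le _)
      (mem_univ u)
  have hx : ∀ (y : ZMod L) (n : ℕ), c ((n : ZMod L), y) = none ↔ c (0, y) = none := by
    intro y n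
    induction n with
    | zero => rw [Nat.cast_zero]
    | succ n ih =>
      have h2 := h1 ((n : ZMod L), y)
      have h3 : eh (c ((n : ZMod L), y)) (c ((n : ZMod L) + 1, y)) < 5 := by
        simp only at h2
        omega
      rw [Nat.cast_succ, ← ih]
      exact (eh_lt h3).symm
  have hy : ∀ (n : ℕ), c (0, (n : ZMod L)) = none ↔ c (0, 0) = none := by
    intro n
    induction n with
    | zero => rw [Nat.cast_zero]
    | succ n ih =>
      have h2 := h1 (0, (n : ZMod L))
      have h3 : ev (c (0, (n : ZMod L))) (c (0, (n : ZMod L) + 1)) < 5 := by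
        simp only at h2
        omega
      rw [Nat.cast_succ, ← ih]
      exact (ev_lt h3).symm
  have hz : ∀ u : Site L, c u = none ↔ c (0, 0) = none := by
    rintro ⟨x, y⟩
    have h2 := hx y x.val
    have h3 := hy y.val
    rw [ZMod.natCast_zmod_val] at h2 h3
    exact h2.trans h3
  by_cases h0 : c (0, 0) = none
  · exact Or.inl fun u => (hz u).2 h0
  · exact Or.inr fun u => fun hu => h0 ((hz u).1 hu)

/-- the configuration of tiles with labels -/
def lab (t : Site L → Tile) (σ : Site L → Fin q) : Site L → Sym q := fun u => some (t u, σ u)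

theorem en_lab (t : Site L → Tile) (σ : Site L → Fin q) : en (lab t σ) = defects t := by
  classical
  unfold en defects lab
  refine sum_congr rfl fun u _ => ?_
  simp only [eh, ev]

theorem eq_lab (c : Site L → Sym q) (h : ∀ u, c u ≠ none) : ∃ t σ, c = lab t σ := by
  have h1 : ∀ u, ∃ p, c u = some p := fun u => Option.ne_none_iff_exists'.1 (h u)
  choose f hf using h1
  exact ⟨fun u => (f u).1, fun u => (f u).2, funext hf⟩

/-- The first excited level: `m` is the least energy of the configurations of tiles. -/
theorem level (L : ℕ) [NeZero L] : ∃ (m : ℕ) (t : Site L → Tile), 1 ≤ m ∧ m ≤ 4 ∧ defects t = m ∧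
    ∀ (q : ℕ) (c : Site L → Sym q), (∀ u, c u = none) ∨ m ≤ en c := by
  classical
  obtain ⟨t₀, ht₀⟩ := exists_cfg L
  have : Nonempty (Site L → Tile) := ⟨t₀⟩
  obtain ⟨t, ht⟩ := Finite.exists_min (fun t : Site L → Tile => defects t)
  refine ⟨defects t, t, Nat.one_le_iff_ne_zero.2 (defects_ne_zero t), (ht t₀).trans ht₀, rfl, ?_⟩
  intro q c
  by_cases h : en c < 5
  · rcases all_or c h with h1 | h1
    · exact Or.inl h1
    · right
      obtain ⟨t', σ, rfl⟩ := eq_lab c h1
      rw [en_lab]
      exact ht t'
  · right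
    have := (ht t₀).trans ht₀
    omega

/-! ### Diagonal interactions -/

theorem term_diag {d R L : ℕ} [NeZero L] (f : (Fin R × Fin R → Fin d) → ℂ) (u : Site L) :
    term (Matrix.diagonal f) u = Matrix.diagonal (fun s : Site L → Fin d => f (fun x => s (sh u x))) := by
  classical
  ext s t
  unfold term
  by_cases hst : s = t
  · subst hst
    rw [if_pos (fun _ _ => rfl), Matrix.diagonal_apply_eq, Matrix.diagonal_apply_eq]
  · rw [Matrix.diagonal_apply_ne _ hst]
    split_ifs with h
    · rw [Matrix.diagonal_apply_ne]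
      intro hh
      apply hst
      funext v
      by_cases hv : ∃ x : Fin R × Fin R, sh u x = v
      · obtain ⟨x, rfl⟩ := hv
        exact congrFun hh x
      · push Not at hv
        exact h v hv
    · rfl

theorem ham_diag {d R L : ℕ} [NeZero L] (f : (Fin R × Fin R → Fin d) → ℂ) :
    ham (Matrix.diagonal f) L =
      Matrix.diagonal (fun s : Site L → Fin d => ∑ u : Site L, f (fun x => s (sh u x))) := by
  classical
  unfold ham
  ext s t
  rw [Matrix.sum_apply]
  by_cases hst : s = t
  · subst hst
    rw [Matrix.diagonal_apply_eq]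
    refine sum_congr rfl fun u _ => ?_
    rw [term_diag, Matrix.diagonal_apply_eq]
  · rw [Matrix.diagonal_apply_ne _ hst]
    refine sum_eq_zero fun u _ => ?_
    rw [term_diag, Matrix.diagonal_apply_ne _ hst]

/-- the number of tiles -/
noncomputable def nt : ℕ := Nat.card Tile

/-- numbering of the states of a site -/
noncomputable def lbl (q : ℕ) : Fin (nt * q + 1) ≃ Sym q :=
  (Finite.equivFinOfCardEq (by
    have := Fintype.ofFinite Tile
    rw [Nat.card_eq_fintype_card, Fintype.card_option, Fintype.card_prod, Fintype.card_fin]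
    unfold nt
    rw [Nat.card_eq_fintype_card])).symm

/-- energy on the `2 × 2` box -/
noncomputable def eb (q : ℕ) (p : Fin 2 × Fin 2 → Fin (nt * q + 1)) : ℕ :=
  eh (lbl q (p (0, 0))) (lbl q (p (1, 0))) + ev (lbl q (p (0, 0))) (lbl q (p (0, 1)))

/-- The interaction. -/
noncomputable def hq (q : ℕ) : BoxOp (nt * q + 1) 2 := Matrix.diagonal fun p => (eb q p : ℂ)

/-- configuration of states from configuration of numbers -/
noncomputable def dec (s : Site L → Fin (nt * q + 1)) : Site L → Sym q := fun u => lbl q (s u)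

/-- configuration of numbers from configuration of states -/
noncomputable def cod (c : Site L → Sym q) : Site L → Fin (nt * q + 1) := fun u => (lbl q).symm (c u)

theorem dec_cod (c : Site L → Sym q) : dec (cod c) = c := by
  funext u; unfold dec cod; simp

theorem cod_dec (s : Site L → Fin (nt * q + 1)) : cod (dec s) = s := by
  funext u; unfold dec cod; simp

theorem ham_hq : ham (hq q) L = Matrix.diagonal
    (fun s : Site L → Fin (nt * q + 1) => ((en (dec s) : ℕ) : ℂ)) := by
  unfold hq
  rw [ham_diag]
  congr 1
  funext s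
  unfold en
  rw [Nat.cast_sum]
  refine sum_congr rfl fun u _ => ?_
  unfold eb dec sh
  simp

theorem ham_mulVec (φ : (Site L → Fin (nt * q + 1)) → ℂ) (s : Site L → Fin (nt * q + 1)) :
    (ham (hq q) L *ᵥ φ) s = ((en (dec s) : ℕ) : ℂ) * φ s := by
  classical
  rw [ham_hq, Matrix.mulVec_diagonal]

/-- The product vector. -/
noncomputable def gs (q L : ℕ) : (Site L → Fin (nt * q + 1)) → ℂ := fun s =>
  open Classical in if ∀ u, s u = (lbl q).symm none then 1 else 0

theorem gs_apply (s : Site L → Fin (nt * q + 1)) :
    gs q L s = if s = cod (fun _ => none) then 1 else 0 := by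
  classical
  unfold gs
  by_cases h : ∀ u, s u = (lbl q).symm none
  · have h1 : s = cod (fun _ => none) := funext h
    rw [if_pos h, if_pos h1]
  · rw [if_neg h, if_neg (fun hh => h fun u => by rw [hh]; rfl)]

theorem gs_norm : normSq (gs q L) = 1 := by
  classical
  unfold normSq
  simp only [gs_apply]
  rw [sum_eq_single (cod fun _ => none)]
  · rw [if_pos rfl]; simp
  · intro s _ hs
    rw [if_neg hs]; simp
  · intro h; exact absurd (mem_univ _) h

theorem gs_eig : ham (hq q) L *ᵥ gs q L = 0 := by
  classical
  funext s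
  rw [ham_mulVec, gs_apply]
  split_ifs with h
  · rw [h, dec_cod, en_none]; simp
  · simp

theorem gs_peps : IsPEPS 1 (gs q L) := by
  classical
  refine ⟨fun _ a _ _ _ _ => if a = (lbl q).symm none then 1 else 0, ?_⟩
  funext s
  unfold contract gs
  have h1 : (∏ x : Site L, (if s x = (lbl q).symm none then (1 : ℂ) else 0)) =
        if ∀ u, s u = (lbl q).symm none then 1 else 0 := by
    by_cases h : ∀ u, s u = (lbl q).symm none
    · rw [if_pos h]
      exact prod_eq_one fun x _ => if_pos (h x)
    · rw [if_neg h]
      push Not at h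
      obtain ⟨x, hx⟩ := h
      exact prod_eq_zero (mem_univ x) (if_neg hx)
  rw [Finset.sum_const, Finset.sum_const, h1]
  simp

/-- eigenvalues are energies of configurations -/
theorem eig_en {E : ℝ} {φ : (Site L → Fin (nt * q + 1)) → ℂ}
    (h : ham (hq q) L *ᵥ φ = (E : ℂ) • φ) (s : Site L → Fin (nt * q + 1)) (hs : φ s ≠ 0) :
    E = en (dec s) := by
  have h1 := congrFun h s
  rw [ham_mulVec, Pi.smul_apply, smul_eq_mul] at h1
  have h2 := mul_right_cancel₀ hs h1
  have h3 : (((en (dec s) : ℕ) : ℝ) : ℂ) = (E : ℂ) := by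
    rw [← h2]; push_cast; rfl
  exact (Complex.ofReal_inj.1 h3).symm

theorem eig_cases {m : ℕ} (hm : ∀ c : Site L → Sym q, (∀ u, c u = none) ∨ m ≤ en c) {E : ℝ}
    {φ : (Site L → Fin (nt * q + 1)) → ℂ} (h0 : φ ≠ 0) (h : ham (hq q) L *ᵥ φ = (E : ℂ) • φ) :
    E = 0 ∨ (m : ℝ) ≤ E := by
  obtain ⟨s, hs⟩ := Function.ne_iff.1 h0
  have h1 := eig_en h s hs
  rcases hm (dec s) with h2 | h2
  · left
    rw [h1]
    have h3 : dec s = fun _ => none := funext h2
    rw [h3, en_none]
    simp
  · right
    rw [h1]
    exact_mod_cast h2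

theorem gs_gapped : IsGappedGround (ham (hq q) L) 1 (gs q L) := by
  classical
  obtain ⟨m, t, hm1, _, _, hm⟩ := level L
  refine ⟨0, ?_, ?_, ?_⟩
  · rw [gs_eig]; simp
  · intro φ h
    refine ⟨φ (cod fun _ => none), ?_⟩
    funext s
    rw [Pi.smul_apply, smul_eq_mul, gs_apply]
    split_ifs with hs
    · rw [hs, mul_one]
    · rw [mul_zero]
      by_contra hne
      have h1 := eig_en h s hne
      have h2 : en (dec s) = 0 := by exact_mod_cast h1.symm
      rcases hm q (dec s) with h3 | h3
      · apply hs
        rw [← cod_dec s, show dec s = fun _ => none from funext h3]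
      · omega
  · intro E φ h0 h
    rcases eig_cases (hm q) h0 h with h1 | h1
    · exact Or.inl h1
    · right
      have : (1 : ℝ) ≤ m := by exact_mod_cast hm1
      linarith

/-- The degeneracy of the first excited level. -/
theorem mult {m : ℕ} (t : Site L → Tile) (ht : defects t = m) :
    q ^ (L ^ 2) ≤ Module.finrank ℂ (Module.End.eigenspace (Matrix.toLin' (ham (hq q) L)) (m : ℂ)) := by
  classical
  let b : (Site L → Fin q) → (Module.End.eigenspace (Matrix.toLin' (ham (hq q) L)) (m : ℂ)) :=
    fun σ => ⟨Pi.single (cod (lab t σ)) 1, by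
      rw [Module.End.mem_eigenspace_iff, Matrix.toLin'_apply]
      funext s
      rw [ham_mulVec, Pi.smul_apply, smul_eq_mul]
      by_cases hs : s = cod (lab t σ)
      · rw [hs, dec_cod, en_lab, ht]
      · rw [Pi.single_eq_of_ne hs, mul_zero, mul_zero]⟩
  have hli : LinearIndependent ℂ b := by
    have h1 : LinearIndependent ℂ (fun σ : Site L → Fin q =>
        (Pi.single (cod (lab t σ)) 1 : (Site L → Fin (nt * q + 1)) → ℂ)) := by
      have h2 := (Pi.basisFun ℂ (Site L → Fin (nt * q + 1))).linearIndependent
      have h3 := h2.comp (fun σ : Site L → Fin q => cod (lab t σ)) (by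
        intro σ σ' h
        have h4 : lab t σ = lab t σ' := by
          rw [← dec_cod (lab t σ), ← dec_cod (lab t σ')]
          exact congrArg dec h
        funext u
        have h5 := congrFun h4 u
        unfold lab at h5
        exact congrArg Prod.snd (Option.some.inj h5))
      have h6 : (fun σ : Site L → Fin q =>
        (Pi.single (cod (lab t σ)) 1 : (Site L → Fin (nt * q + 1)) → ℂ)) =
          (Pi.basisFun ℂ (Site L → Fin (nt * q + 1))) ∘ (fun σ : Site L → Fin q => cod (lab t σ)) := by
        funext σ
        rw [Function.comp_apply, Pi.basisFun_apply]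
      rw [h6]
      exact h3
    exact LinearIndependent.of_comp (Submodule.subtype _) h1
  have h := hli.fintype_card_le_finrank
  have hc : Fintype.card (Site L → Fin q) = q ^ (L ^ 2) := by
    rw [Fintype.card_fun, Fintype.card_fin]
    congr 1
    rw [Fintype.card_prod, ZMod.card, sq]
  rwa [hc] at h

end Pool.Agent.H995.PS
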