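import Pool.Agent.H995.PS.Tile

/-!
# Square blocks of side `2 ^ n`
-/

set_option autoImplicit false
set_option linter.unusedSectionVars false

namespace Pool.Agent.H995.PS

/-- a tile without its position bits -/
structure Tl where
  l : Q
  r : Q
  d : Q
  u : Q

/-- odd columns / rows -/
def od (x : ℕ) : Bool := decide (x % 2 = 1)

/-- columns / rows of index `3` modulo `4` -/
def o3 (x : ℕ) : Bool := decide (x % 4 = 3)

/-- the horizontal numbers in the odd rows, left and right of the tile in the column `x` -/
def ql (x : ℕ) : Fin 4 :=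
  if x % 4 = 0 then 3 else if x % 4 = 1 then 0 else if x % 4 = 2 then 1 else 2

def qr (x : ℕ) : Fin 4 :=
  if x % 4 = 0 then 0 else if x % 4 = 1 then 1 else if x % 4 = 2 then 2 else 3

theorem qr_ql (x : ℕ) : qr x = ql (x + 1) := by
  unfold qr ql
  have : x % 4 = 0 ∨ x % 4 = 1 ∨ x % 4 = 2 ∨ x % 4 = 3 := by omega
  rcases this with h | h | h | h
  · have h' : (x + 1) % 4 = 1 := by omega
    rw [h, h']; decide
  · have h' : (x + 1) % 4 = 2 := by omega
    rw [h, h']; decide
  · have h' : (x + 1) % 4 = 3 := by omega
    rw [h, h']; decide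
  · have h' : (x + 1) % 4 = 0 := by omega
    rw [h, h']; decide

/-- The tiles of the blocks. -/
def tl : ℕ → ℕ → ℕ → Tl
  | 0, x, y =>
    if x % 2 = 1 then
      if y % 2 = 1 then ⟨(0, false), (1, false), (0, false), (1, false)⟩
      else ⟨(0, false), (0, false), (3, false), (0, false)⟩
    else
      if y % 2 = 1 then ⟨(3, false), (0, false), (0, false), (0, false)⟩
      else ⟨(0, false), (1, false), (0, false), (1, false)⟩
  | n + 1, x, y =>
    if x % 2 = 1 then
      if y % 2 = 1 then ⟨(ql x, o3 y), (qr x, o3 y), (ql y, o3 x), (qr y, o3 x)⟩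
      else ⟨(tl n (x / 2) (y / 2)).r, (tl n (x / 2) (y / 2)).r, (ql y, o3 x), (qr y, o3 x)⟩
    else
      if y % 2 = 1 then ⟨(ql x, o3 y), (qr x, o3 y), (tl n (x / 2) (y / 2)).u, (tl n (x / 2) (y / 2)).u⟩
      else tl n (x / 2) (y / 2)

theorem tl_swap : ∀ (n x y : ℕ), tl n y x = ⟨(tl n x y).d, (tl n x y).u, (tl n x y).l, (tl n x y).r⟩ := by
  intro n
  induction n with
  | zero =>
    intro x y
    unfold tl
    split_ifs <;> rfl
  | succ n ih =>
    intro x y
    have h := ih (x / 2) (y / 2)
    unfold tl
    split_ifs with h1 h2 h2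
    · rfl
    · rw [h]
    · rw [h]
    · exact h

theorem o3_of {x : ℕ} (hx : x % 2 = 1) : (o3 x = false ∧ ql x = 0 ∧ qr x = 1) ∨
    (o3 x = true ∧ ql x = 2 ∧ qr x = 3) := by
  have : x % 4 = 1 ∨ x % 4 = 3 := by omega
  rcases this with h | h
  · left; unfold o3 ql qr; rw [h]; decide
  · right; unfold o3 ql qr; rw [h]; decide

theorem q_even {x : ℕ} (hx : ¬ x % 2 = 1) : (x % 4 = 2 ∧ ql x = 1 ∧ qr x = 2) ∨
    (x % 4 = 0 ∧ ql x = 3 ∧ qr x = 0) := by
  have : x % 4 = 0 ∨ x % 4 = 2 := by omega
  rcases this with h | h
  · right; unfold ql qr; rw [h]; decide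
  · left; unfold ql qr; rw [h]; decide

theorem od_true {x : ℕ} (hx : x % 2 = 1) : od x = true := by unfold od; rw [hx]; rfl

theorem od_false {x : ℕ} (hx : ¬ x % 2 = 1) : od x = false := by
  unfold od; exact decide_eq_false hx

theorem ok_tl : ∀ (n x y : ℕ),
    Ok (od x) (od y) (tl n x y).l (tl n x y).r (tl n x y).d (tl n x y).u := by
  intro n
  induction n with
  | zero =>
    intro x y
    unfold tl
    by_cases hx : x % 2 = 1
    · by_cases hy : y % 2 = 1
      · rw [od_true hx, od_true hy, if_pos hx, if_pos hy]
        show EqT _ _ _ _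
        unfold EqT; decide
      · rw [od_true hx, od_false hy, if_pos hx, if_neg hy]
        show LtT _ _ _ _
        unfold LtT; decide
    · by_cases hy : y % 2 = 1
      · rw [od_false hx, od_true hy, if_neg hx, if_pos hy]
        show GtT _ _ _ _
        unfold GtT LtT; decide
      · rw [od_false hx, od_false hy, if_neg hx, if_neg hy]
        left
        unfold EqT; decide
  | succ n ih =>
    intro x y
    by_cases hx : x % 2 = 1
    · by_cases hy : y % 2 = 1
      · rw [od_true hx, od_true hy]
        show EqT _ _ _ _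
        rw [tl, if_pos hx, if_pos hy]
        refine ⟨rfl, rfl, ?_, ?_⟩
        · rcases o3_of hx with h | h
          · exact Or.inl h
          · exact Or.inr h
        · rcases o3_of hy with h | h
          · exact Or.inl h
          · exact Or.inr h
      · rw [od_true hx, od_false hy]
        show LtT _ _ _ _
        rw [tl, if_pos hx, if_neg hy]
        refine ⟨rfl, rfl, ?_⟩
        rcases q_even hy with h | h
        · left
          refine ⟨h.2.1, h.2.2, ?_⟩
          have h1 := ih (x / 2) (y / 2)
          have hy2 : (y / 2) % 2 = 1 := by omega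
          rw [od_true hy2] at h1
          show par (tl n (x / 2) (y / 2)).r.1 = o3 x
          by_cases hx2 : (x / 2) % 2 = 1
          · rw [od_true hx2] at h1
            have h3 : o3 x = true := by unfold o3; exact decide_eq_true (by omega)
            rw [h3]
            exact (EqT.par h1).2.1
          · rw [od_false hx2] at h1
            have h3 : o3 x = false := by unfold o3; exact decide_eq_false (by omega)
            rw [h3]
            exact (LtT.par h1).2.2
        · exact Or.inr h.2
    · by_cases hy : y % 2 = 1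
      · rw [od_false hx, od_true hy]
        show LtT _ _ _ _
        rw [tl, if_neg hx, if_pos hy]
        refine ⟨rfl, rfl, ?_⟩
        rcases q_even hx with h | h
        · left
          refine ⟨h.2.1, h.2.2, ?_⟩
          have h1 := ih (x / 2) (y / 2)
          have hx2 : (x / 2) % 2 = 1 := by omega
          rw [od_true hx2] at h1
          show par (tl n (x / 2) (y / 2)).u.1 = o3 y
          by_cases hy2 : (y / 2) % 2 = 1
          · rw [od_true hy2] at h1
            have h3 : o3 y = true := by unfold o3; exact decide_eq_true (by omega)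
            rw [h3]
            exact (EqT.par h1).2.2.2
          · rw [od_false hy2] at h1
            have h3 : o3 y = false := by unfold o3; exact decide_eq_false (by omega)
            rw [h3]
            exact (LtT.par h1).2.2
        · exact Or.inr h.2
      · rw [od_false hx, od_false hy]
        have h1 := ih (x / 2) (y / 2)
        rw [tl, if_neg hx, if_neg hy]
        generalize od (x / 2) = a at h1
        generalize od (y / 2) = b at h1
        cases a
        · cases b
          · exact h1
          · exact Or.inr (Or.inr h1)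
        · cases b
          · exact Or.inr (Or.inl h1)
          · exact Or.inl h1

/-- horizontal edges inside a block match -/
theorem hmatch : ∀ (n x y : ℕ), ¬ 2 ^ n ∣ x + 1 → (tl n x y).r = (tl n (x + 1) y).l := by
  intro n
  induction n with
  | zero => intro x y h; exact absurd (one_dvd _) h
  | succ n ih =>
    intro x y h
    by_cases hy : y % 2 = 1
    · by_cases hx : x % 2 = 1
      · have hx1 : ¬ (x + 1) % 2 = 1 := by omega
        rw [tl, tl, if_pos hx, if_pos hy, if_neg hx1, if_pos hy]
        show (qr x, o3 y) = (ql (x + 1), o3 y)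
        rw [qr_ql]
      · have hx1 : (x + 1) % 2 = 1 := by omega
        rw [tl, tl, if_neg hx, if_pos hy, if_pos hx1, if_pos hy]
        show (qr x, o3 y) = (ql (x + 1), o3 y)
        rw [qr_ql]
    · by_cases hx : x % 2 = 1
      · have hx1 : ¬ (x + 1) % 2 = 1 := by omega
        rw [tl, tl, if_pos hx, if_neg hy, if_neg hx1, if_neg hy]
        have hx2 : (x + 1) / 2 = x / 2 + 1 := by omega
        rw [hx2]
        refine ih _ _ fun hd => h ?_
        have hx3 : x + 1 = 2 * (x / 2 + 1) := by omega
        rw [hx3, pow_succ, mul_comm (2 ^ n) 2]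
        exact Nat.mul_dvd_mul_left 2 hd
      · have hx1 : (x + 1) % 2 = 1 := by omega
        rw [tl, tl, if_neg hx, if_neg hy, if_pos hx1, if_neg hy]
        have hx2 : (x + 1) / 2 = x / 2 := by omega
        rw [hx2]

/-- horizontal edges across the boundary of a block match, except in two rows -/
theorem hwrap : ∀ (n y : ℕ), y < 2 ^ n → y ≠ 0 → 2 * y ≠ 2 ^ n →
    (tl n (2 ^ n - 1) y).r = (tl n 0 y).l := by
  intro n
  induction n with
  | zero => intro y h h0; exact absurd (by simpa using h) h0
  | succ n ih =>
    intro y hy h0 h2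
    have hp : 1 ≤ 2 ^ n := Nat.one_le_two_pow
    have hx : (2 ^ (n + 1) - 1) % 2 = 1 := by rw [pow_succ]; omega
    have hx0 : ¬ 0 % 2 = 1 := by omega
    by_cases hy1 : y % 2 = 1
    · rw [tl, tl, if_pos hx, if_pos hy1, if_neg hx0, if_pos hy1]
      show (qr (2 ^ (n + 1) - 1), o3 y) = (ql 0, o3 y)
      have hn : n ≠ 0 := by
        rintro rfl
        simp only [zero_add, pow_one] at hy h2
        omega
      obtain ⟨m, rfl⟩ := Nat.exists_eq_succ_of_ne_zero hn
      have hm : 1 ≤ 2 ^ m := Nat.one_le_two_pow
      have h4 : (2 ^ (m.succ + 1) - 1) % 4 = 3 := by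
        rw [pow_succ, pow_succ]; omega
      have : qr (2 ^ (m.succ + 1) - 1) = ql 0 := by
        unfold qr ql
        rw [h4]
        decide
      rw [this]
    · rw [tl, tl, if_pos hx, if_neg hy1, if_neg hx0, if_neg hy1]
      have hx2 : (2 ^ (n + 1) - 1) / 2 = 2 ^ n - 1 := by rw [pow_succ]; omega
      rw [hx2]
      show (tl n (2 ^ n - 1) (y / 2)).r = (tl n 0 (y / 2)).l
      rw [pow_succ] at hy h2
      exact ih _ (by omega) (by omega) (by omega)

theorem vmatch (n x y : ℕ) (h : ¬ 2 ^ n ∣ y + 1) : (tl n x y).u = (tl n x (y + 1)).d := by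
  have := hmatch n y x h
  rw [tl_swap n x y, tl_swap n x (y + 1)] at this
  exact this

theorem vwrap (n x : ℕ) (h : x < 2 ^ n) (h0 : x ≠ 0) (h2 : 2 * x ≠ 2 ^ n) :
    (tl n x (2 ^ n - 1)).u = (tl n x 0).d := by
  have := hwrap n x h h0 h2
  rw [tl_swap n x (2 ^ n - 1), tl_swap n x 0] at this
  exact this

end Pool.Agent.H995.PS
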