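import Mathlib

/-!
# An aperiodic set of Wang tiles: the descent

The four colours of a tile are pairs (number in `0..3`, bit). Position bits `a` (odd column), `b`
(odd row). If `s`, `r` are commuting self-maps of a finite nonempty set there is no tiling.
-/

set_option autoImplicit false
set_option linter.unusedSectionVars false

namespace Pool.Agent.H995.PS

/-- colours -/
abbrev Q : Type := Fin 4 × Bool

/-- parity -/
def par (i : Fin 4) : Bool := decide (i = 1 ∨ i = 3)

/-- the tiles which change both numbers from even to odd -/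
def EqT (l r d u : Q) : Prop :=
  l.2 = r.2 ∧ d.2 = u.2 ∧
    ((d.2 = false ∧ l.1 = 0 ∧ r.1 = 1) ∨ (d.2 = true ∧ l.1 = 2 ∧ r.1 = 3)) ∧
    ((l.2 = false ∧ d.1 = 0 ∧ u.1 = 1) ∨ (l.2 = true ∧ d.1 = 2 ∧ u.1 = 3))

/-- the tiles which pass the horizontal colour -/
def LtT (l r d u : Q) : Prop :=
  l = r ∧ d.2 = u.2 ∧ ((d.1 = 1 ∧ u.1 = 2 ∧ par l.1 = d.2) ∨ (d.1 = 3 ∧ u.1 = 0))

/-- the tiles which pass the vertical colour -/
def GtT (l r d u : Q) : Prop := LtT d u l r

/-- the tiles allowed at the position bits `a` (odd column) and `b` (odd row) -/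
def Ok (a b : Bool) (l r d u : Q) : Prop :=
  match a, b with
  | true, true => EqT l r d u
  | true, false => LtT l r d u
  | false, true => GtT l r d u
  | false, false => EqT l r d u ∨ LtT l r d u ∨ GtT l r d u

/-- A tiling. `H z` is the colour of the edge to the right of `z`, `V z` that of the edge above. -/
structure Tiling (Z : Type) (s r : Z → Z) where
  a : Z → Bool
  b : Z → Bool
  H : Z → Q
  V : Z → Q
  as : ∀ z, a (s z) = !(a z)
  ar : ∀ z, a (r z) = a z
  br : ∀ z, b (r z) = !(b z)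
  bs : ∀ z, b (s z) = b z
  ok : ∀ z, Ok (a (s (r z))) (b (s (r z))) (H (r z)) (H (s (r z))) (V (s z)) (V (s (r z)))

theorem EqT.swap {l r d u : Q} (h : EqT l r d u) : EqT d u l r :=
  ⟨h.2.1, h.1, h.2.2.2, h.2.2.1⟩

theorem par_even {i : Fin 4} (h : i = 0 ∨ i = 2) : par i = false := by
  rcases h with h | h <;> subst h <;> decide

theorem par_odd {i : Fin 4} (h : i = 1 ∨ i = 3) : par i = true := by
  rcases h with h | h <;> subst h <;> decide

/-- types of tiles from parities -/
theorem EqT.par {l r d u : Q} (h : EqT l r d u) :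
    PS.par l.1 = false ∧ PS.par r.1 = true ∧ PS.par d.1 = false ∧ PS.par u.1 = true := by
  obtain ⟨_, _, h3, h4⟩ := h
  refine ⟨?_, ?_, ?_, ?_⟩
  · rcases h3 with h | h <;> rw [h.2.1] <;> decide
  · rcases h3 with h | h <;> rw [h.2.2] <;> decide
  · rcases h4 with h | h <;> rw [h.2.1] <;> decide
  · rcases h4 with h | h <;> rw [h.2.2] <;> decide

theorem LtT.par {l r d u : Q} (h : LtT l r d u) :
    PS.par l.1 = PS.par r.1 ∧ PS.par d.1 = true ∧ PS.par u.1 = false := by
  obtain ⟨h1, _, h3⟩ := h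
  refine ⟨by rw [h1], ?_, ?_⟩
  · rcases h3 with h | h <;> rw [h.1] <;> decide
  · rcases h3 with h | h
    · rw [h.2.1]; decide
    · rw [h.2]; decide

namespace Tiling

variable {Z : Type} {s r : Z → Z} (T : Tiling Z s r) (hc : ∀ z, s (r z) = r (s z))

include hc

/-- the tile at an odd-odd position -/
theorem ee {z : Z} (h1 : T.a z = false) (h2 : T.b z = false) :
    EqT (T.H (r z)) (T.H (s (r z))) (T.V (s z)) (T.V (s (r z))) := by
  have h := T.ok z
  have ha : T.a (s (r z)) = true := by rw [T.as, T.ar, h1]; rfl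
  have hb : T.b (s (r z)) = true := by rw [T.bs, T.br, h2]; rfl
  rw [ha, hb] at h
  exact h

/-- the tile at `s (r (r z))` -/
theorem ltr {z : Z} (h1 : T.a z = false) (h2 : T.b z = false) :
    LtT (T.H (r (r z))) (T.H (s (r (r z)))) (T.V (s (r z))) (T.V (s (r (r z)))) := by
  have h := T.ok (r z)
  have ha : T.a (s (r (r z))) = true := by rw [T.as, T.ar, T.ar, h1]; rfl
  have hb : T.b (s (r (r z))) = false := by rw [T.bs, T.br, T.br, h2]; rfl
  rw [ha, hb] at h
  exact h

/-- the tile at `s (s (r z))` -/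
theorem gts {z : Z} (h1 : T.a z = false) (h2 : T.b z = false) :
    GtT (T.H (s (r z))) (T.H (s (s (r z)))) (T.V (s (s z))) (T.V (s (s (r z)))) := by
  have h := T.ok (s z)
  rw [← hc z] at h
  have ha : T.a (s (s (r z))) = false := by rw [T.as, T.as, T.ar, h1]; rfl
  have hb : T.b (s (s (r z))) = true := by rw [T.bs, T.bs, T.br, h2]; rfl
  rw [ha, hb] at h
  exact h

/-- the coarse position bit of the column -/
def ca (z : Z) : Bool := decide ((T.H (r z)).1 = 2)

/-- the coarse position bit of the row -/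
def cb (z : Z) : Bool := decide ((T.V (s z)).1 = 2)

omit hc in
theorem ca_iff (z : Z) : T.ca z = true ↔ (T.H (r z)).1 = 2 := by
  unfold ca; exact decide_eq_true_iff

omit hc in
theorem cb_iff (z : Z) : T.cb z = true ↔ (T.V (s z)).1 = 2 := by
  unfold cb; exact decide_eq_true_iff

omit hc in
theorem Ok.swap {a b : Bool} {l r d u : Q} (h : Ok a b l r d u) : Ok b a d u l r := by
  cases a <;> cases b
  · rcases h with h | h | h
    · exact Or.inl h.swap
    · exact Or.inr (Or.inr h)
    · exact Or.inr (Or.inl h)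
  · exact h
  · exact h
  · exact EqT.swap h

/-- the transposed tiling -/
def swap : Tiling Z r s where
  a := T.b
  b := T.a
  H := T.V
  V := T.H
  as := T.br
  ar := T.bs
  br := T.as
  bs := T.ar
  ok z := by
    have h := Ok.swap (T.ok z)
    rw [hc z] at h
    exact h

theorem ca_ss {z : Z} (h1 : T.a z = false) (h2 : T.b z = false) :
    T.ca (s (s z)) = !(T.ca z) := by
  have e1 := T.ee hc h1 h2
  have e2 := T.gts hc h1 h2
  obtain ⟨_, _, h3, _⟩ := e1
  obtain ⟨_, _, h4⟩ := e2
  have h5 : r (s (s z)) = s (s (r z)) := by rw [← hc, ← hc]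
  unfold ca
  rw [h5]
  rcases h3 with h | h
  · rcases h4 with h' | h'
    · rw [h.2.1, h'.2.1]; decide
    · rw [h.2.2] at h'; exact absurd h'.1 (by decide)
  · rcases h4 with h' | h'
    · rw [h.2.2] at h'; exact absurd h'.1 (by decide)
    · rw [h.2.1, h'.2]; decide

theorem ca_iff' {z : Z} (h1 : T.a z = false) (h2 : T.b z = false) :
    T.ca z = (T.V (s z)).2 := by
  obtain ⟨_, _, h3, _⟩ := T.ee hc h1 h2
  unfold ca
  rcases h3 with h | h
  · rw [h.1, h.2.1]; decide
  · rw [h.1, h.2.1]; decide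

theorem ca_rr {z : Z} (h1 : T.a z = false) (h2 : T.b z = false) :
    T.ca (r (r z)) = T.ca z := by
  have h3 : T.a (r (r z)) = false := by rw [T.ar, T.ar, h1]
  have h4 : T.b (r (r z)) = false := by rw [T.br, T.br, h2]; rfl
  rw [T.ca_iff' hc h1 h2, T.ca_iff' hc h3 h4, ← (T.ltr hc h1 h2).2.1, ← (T.ee hc h1 h2).2.1]

theorem cb_rr {z : Z} (h1 : T.a z = false) (h2 : T.b z = false) :
    T.cb (r (r z)) = !(T.cb z) :=
  (T.swap hc).ca_ss (fun z => (hc z).symm) h2 h1

theorem cb_ss {z : Z} (h1 : T.a z = false) (h2 : T.b z = false) :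
    T.cb (s (s z)) = T.cb z :=
  (T.swap hc).ca_rr (fun z => (hc z).symm) h2 h1

/-- the parities of the vertical colours in the coarse odd columns -/
theorem parV {z : Z} (h1 : T.a z = false) (h2 : T.b z = false)
    (h : T.ca (s (s (r (r z)))) = true) :
    par (T.V (s (s z))).1 = !(T.cb (s (s (r (r z))))) ∧
      par (T.V (s (s (r (r z))))).1 = T.cb (s (s (r (r z)))) := by
  have h3 : T.a (r (r z)) = false := by rw [T.ar, T.ar, h1]
  have h4 : T.b (r (r z)) = false := by rw [T.br, T.br, h2]; rfl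
  have h5 : T.a (s (s z)) = false := by rw [T.as, T.as, h1]; rfl
  have h6 : T.b (s (s z)) = false := by rw [T.bs, T.bs, h2]
  have c1 : r (r (s (s z))) = s (s (r (r z))) := by simp only [← hc]
  have h7 : T.ca (s (s z)) = true := by
    rw [← h, ← c1, T.ca_rr hc h5 h6]
  have h8 : (T.H (s (s (r z)))).1 = 2 := by
    have := (T.ca_iff (s (s z))).1 h7
    rwa [← hc, ← hc] at this
  have h9 : (T.H (s (s (r (r (r z)))))).1 = 2 := by
    have := (T.ca_iff (s (s (r (r z))))).1 h
    rwa [← hc, ← hc] at this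
  have g1 := T.gts hc h1 h2
  have g2 := T.gts hc h3 h4
  have p1 : par (T.V (s (s z))).1 = (T.H (s (r z))).2 := by
    obtain ⟨_, _, h10⟩ := g1
    rcases h10 with h' | h'
    · exact h'.2.2
    · rw [h8] at h'; exact absurd h'.2 (by decide)
  have p2 : par (T.V (s (s (r (r z))))).1 = (T.H (s (r (r (r z))))).2 := by
    obtain ⟨_, _, h10⟩ := g2
    rcases h10 with h' | h'
    · exact h'.2.2
    · rw [h9] at h'; exact absurd h'.2 (by decide)
  have h11 : T.cb (s (s (r (r z)))) = T.cb (r (r z)) := T.cb_ss hc h3 h4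
  have e1 := T.ee hc h1 h2
  have e3 := T.ee hc h3 h4
  have l1 := T.ltr hc h1 h2
  have p3 : T.cb (r (r z)) = !(T.H (s (r z))).2 := by
    unfold cb
    obtain ⟨k1, _, _, k4⟩ := e1
    obtain ⟨_, _, k5⟩ := l1
    rw [← k1]
    rcases k4 with h' | h'
    · rcases k5 with h'' | h''
      · rw [h''.2.1, h'.1]; decide
      · rw [h'.2.2] at h''; exact absurd h''.1 (by decide)
    · rcases k5 with h'' | h''
      · rw [h'.2.2] at h''; exact absurd h''.1 (by decide)
      · rw [h''.2, h'.1]; decide
  have p4 : T.cb (r (r z)) = (T.H (s (r (r (r z))))).2 := by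
    unfold cb
    obtain ⟨k1, _, _, k4⟩ := e3
    rw [← k1]
    rcases k4 with h' | h'
    · rw [h'.2.1, h'.1]; decide
    · rw [h'.2.1, h'.1]; decide
  rw [h11, p1, p2, ← p4, p3]
  exact ⟨(Bool.not_not _).symm, rfl⟩

theorem parH {z : Z} (h1 : T.a z = false) (h2 : T.b z = false)
    (h : T.cb (s (s (r (r z)))) = true) :
    par (T.H (r (r z))).1 = !(T.ca (s (s (r (r z))))) ∧
      par (T.H (s (s (r (r z))))).1 = T.ca (s (s (r (r z)))) := by
  have c1 : r (r (s (s z))) = s (s (r (r z))) := by simp only [← hc]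
  have h3 := (T.swap hc).parV (fun z => (hc z).symm) h2 h1
  rw [c1] at h3
  exact h3 h

/-- the coarse tile -/
theorem cok {z : Z} (h1 : T.a z = false) (h2 : T.b z = false) :
    Ok (T.ca (s (s (r (r z))))) (T.cb (s (s (r (r z))))) (T.H (r (r z)))
      (T.H (s (s (r (r z))))) (T.V (s (s z))) (T.V (s (s (r (r z))))) := by
  have c2 : r (s (r z)) = s (r (r z)) := by rw [← hc]
  have t0 := T.ok (s (r z))
  rw [c2] at t0
  have ha : T.a (s (s (r (r z)))) = false := by rw [T.as, T.as, T.ar, T.ar, h1]; rfl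
  have hb : T.b (s (s (r (r z)))) = false := by rw [T.bs, T.bs, T.br, T.br, h2]; rfl
  rw [ha, hb] at t0
  have e1 : T.H (s (r (r z))) = T.H (r (r z)) := (T.ltr hc h1 h2).1.symm
  have e2 : T.V (s (s (r z))) = T.V (s (s z)) := (T.gts hc h1 h2).1.symm
  rw [e1, e2] at t0
  have k1 := T.parV hc h1 h2
  have k2 := T.parH hc h1 h2
  generalize T.ca (s (s (r (r z)))) = ca at *
  generalize T.cb (s (s (r (r z)))) = cb at *
  generalize T.H (r (r z)) = l at *
  generalize T.H (s (s (r (r z)))) = r' at *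
  generalize T.V (s (s z)) = d at *
  generalize T.V (s (s (r (r z)))) = u at *
  have t1 : EqT l r' d u ∨ LtT l r' d u ∨ GtT l r' d u := t0
  cases ca
  · cases cb
    · exact t1
    · obtain ⟨q1, q2⟩ := k2 rfl
      rcases t1 with t | t | t
      · have := t.par.1
        rw [q1] at this
        exact absurd this (by decide)
      · have := t.par.1
        rw [q1, q2] at this
        exact absurd this (by decide)
      · exact t
  · obtain ⟨q1, q2⟩ := k1 rfl
    cases cb
    · rcases t1 with t | t | t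
      · have := t.par.2.2.1
        rw [q1] at this
        exact absurd this (by decide)
      · exact t
      · have := LtT.par t
        rw [q1, q2] at this
        exact absurd this.1 (by decide)
    · rcases t1 with t | t | t
      · exact t
      · have := t.par.2.1
        rw [q1] at this
        exact absurd this (by decide)
      · have := LtT.par t
        rw [q1, q2] at this
        exact absurd this.1 (by decide)

/-- The coarse tiling. -/
def coarse : Tiling {z : Z // T.a z = false ∧ T.b z = false}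
    (fun z => ⟨s (s z.1), by rw [T.as, T.as, z.2.1]; rfl, by rw [T.bs, T.bs, z.2.2]⟩)
    (fun z => ⟨r (r z.1), by rw [T.ar, T.ar, z.2.1], by rw [T.br, T.br, z.2.2]; rfl⟩) where
  a z := T.ca z.1
  b z := T.cb z.1
  H z := T.H z.1
  V z := T.V z.1
  as z := T.ca_ss hc z.2.1 z.2.2
  ar z := T.ca_rr hc z.2.1 z.2.2
  br z := T.cb_rr hc z.2.1 z.2.2
  bs z := T.cb_ss hc z.2.1 z.2.2
  ok z := T.cok hc z.2.1 z.2.2

end Tiling

/-- There is no tiling. -/
theorem no_tiling : ∀ (n : ℕ) (Z : Type) [Fintype Z], Fintype.card Z = n → Nonempty Z →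
    ∀ (s r : Z → Z), (∀ z, s (r z) = r (s z)) → Tiling Z s r → False := by
  intro n
  induction n using Nat.strong_induction_on with
  | _ n ih =>
    intro Z _ hn hne s r hc T
    classical
    obtain ⟨z₀⟩ := hne
    obtain ⟨z₁, h1⟩ : ∃ z, T.a z = false := by
      by_cases h : T.a z₀ = false
      · exact ⟨z₀, h⟩
      · exact ⟨s z₀, by rw [T.as, (Bool.not_eq_false _).mp h]; rfl⟩
    obtain ⟨z₂, h2, h3⟩ : ∃ z, T.a z = false ∧ T.b z = false := by
      by_cases h : T.b z₁ = false
      · exact ⟨z₁, h1, h⟩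
      · exact ⟨r z₁, by rw [T.ar, h1], by rw [T.br, (Bool.not_eq_false _).mp h]; rfl⟩
    refine ih (Fintype.card {z : Z // T.a z = false ∧ T.b z = false}) ?_ _ rfl ⟨⟨z₂, h2, h3⟩⟩ _ _ ?_
      (T.coarse hc)
    · rw [← hn]
      refine Fintype.card_subtype_lt (x := s z₂) ?_
      rw [T.as, h2]
      simp
    · rintro ⟨z, hz⟩
      apply Subtype.ext
      show s (s (r (r z))) = r (r (s (s z)))
      simp only [← hc]

end Pool.Agent.H995.PS
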