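import Pool.Agent.H995.PS.Full

/-!
# Configurations on the torus of any side with at most four defects
-/

set_option autoImplicit false
set_option linter.unusedSectionVars false

open Finset

namespace Pool.Agent.H995.PS

/-- The tiles. -/
abbrev Tile : Type := {p : FE × FE × FE × FE // FT p.1 p.2.1 p.2.2.1 p.2.2.2}

instance : Finite Tile := inferInstance

/-- left, right, lower and upper colour of a tile -/
def Tile.le (p : Tile) : FE := p.1.1
def Tile.ri (p : Tile) : FE := p.1.2.1
def Tile.dn (p : Tile) : FE := p.1.2.2.1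
def Tile.up (p : Tile) : FE := p.1.2.2.2

def dum (r X : ℕ) : Bool := decide (X < 2 * r ∧ X % 2 = 1)
def dum' (r X : ℕ) : Bool := decide (X % 2 = 0 ∧ 1 ≤ X ∧ X ≤ 2 * r)
def idx (r X : ℕ) : ℕ := if X < 2 * r then X / 2 else X - r

def Rc (n x y : ℕ) : HC := (od x, od y, (tl n x y).r)
def Lc (n x y : ℕ) : HC := (!(od x), od y, (tl n x y).l)
def Uc (n x y : ℕ) : HC := (od x, od y, (tl n x y).u)
def Dc (n x y : ℕ) : HC := (od x, !(od y), (tl n x y).d)

def LF (n r X Y : ℕ) : FE :=
  (if dum r Y = true then none else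
    some (if dum r X = true then Rc n (idx r X) (idx r Y) else Lc n (idx r X) (idx r Y)), dum' r X)
def RF (n r X Y : ℕ) : FE :=
  (if dum r Y = true then none else some (Rc n (idx r X) (idx r Y)), dum r X)
def DF (n r X Y : ℕ) : FE :=
  (if dum r X = true then none else
    some (if dum r Y = true then Uc n (idx r X) (idx r Y) else Dc n (idx r X) (idx r Y)), dum' r Y)
def UF (n r X Y : ℕ) : FE :=
  (if dum r X = true then none else some (Uc n (idx r X) (idx r Y)), dum r Y)

theorem dum'_of_dum {r X : ℕ} (h : dum r X = true) : dum' r X = false := by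
  unfold dum at h
  unfold dum'
  have := of_decide_eq_true h
  exact decide_eq_false (by omega)

theorem wt (n x y : ℕ) : WT (Lc n x y) (Rc n x y) (Dc n x y) (Uc n x y) :=
  ⟨od x, od y, _, _, _, _, rfl, rfl, rfl, rfl, ok_tl n x y⟩

theorem ft (n r X Y : ℕ) : FT (LF n r X Y) (RF n r X Y) (DF n r X Y) (UF n r X Y) := by
  unfold LF RF DF UF
  by_cases hX : dum r X = true
  · by_cases hY : dum r Y = true
    · rw [if_pos hX, if_pos hY, if_pos hY, if_pos hX, dum'_of_dum hX, dum'_of_dum hY, hX, hY]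
      exact Or.inr (Or.inr (Or.inr ⟨rfl, rfl, rfl, rfl⟩))
    · rw [if_pos hX, if_neg hY, if_neg hY, if_pos hX, if_pos hX, dum'_of_dum hX, hX]
      have : dum r Y = false := (Bool.not_eq_true _).mp hY
      rw [this]
      exact Or.inr (Or.inl ⟨_, _, rfl, rfl, rfl, rfl⟩)
  · have hX' : dum r X = false := (Bool.not_eq_true _).mp hX
    by_cases hY : dum r Y = true
    · rw [if_neg hX, if_pos hY, if_pos hY, if_neg hX, if_neg hX, if_pos hY, dum'_of_dum hY, hX', hY]
      exact Or.inr (Or.inr (Or.inl ⟨_, _, rfl, rfl, rfl, rfl⟩))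
    · have hY' : dum r Y = false := (Bool.not_eq_true _).mp hY
      rw [if_neg hX, if_neg hY, if_neg hY, if_neg hX, if_neg hX, if_neg hY, hX', hY']
      exact Or.inl ⟨_, _, _, _, _, _, rfl, rfl, rfl, rfl, wt n _ _⟩

theorem dum_succ (r X : ℕ) : dum r X = dum' r (X + 1) := by
  unfold dum dum'
  rw [decide_eq_decide]
  omega

theorem idx_succ_dum {r X : ℕ} (h : dum r (X + 1) = true) : idx r (X + 1) = idx r X := by
  unfold dum at h
  have h1 := of_decide_eq_true h
  unfold idx
  rw [if_pos (by omega), if_pos (by omega)]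
  omega

theorem idx_succ {r X : ℕ} (h : ¬ dum r (X + 1) = true) : idx r (X + 1) = idx r X + 1 := by
  unfold dum at h
  have h1 : ¬ (X + 1 < 2 * r ∧ (X + 1) % 2 = 1) := fun hc => h (decide_eq_true hc)
  unfold idx
  split_ifs <;> omega

theorem idx_lt {r X N : ℕ} (hr : r < N) (h : X < N + r) : idx r X < N := by
  unfold idx
  split_ifs <;> omega

theorem od_succ (x : ℕ) : od x = !(od (x + 1)) := by
  unfold od
  rcases Nat.mod_two_eq_zero_or_one x with h | h
  · have h2 : (x + 1) % 2 = 1 := by omega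
    rw [h, h2]; decide
  · have h2 : (x + 1) % 2 = 0 := by omega
    rw [h, h2]; decide

theorem hF (n r X Y : ℕ) (hr : r < 2 ^ n) (hX : X + 1 < 2 ^ n + r) :
    RF n r X Y = LF n r (X + 1) Y := by
  unfold RF LF
  rw [dum_succ r X]
  by_cases hY : dum r Y = true
  · rw [if_pos hY, if_pos hY]
  · rw [if_neg hY, if_neg hY]
    by_cases h : dum r (X + 1) = true
    · rw [if_pos h, idx_succ_dum h]
    · rw [if_neg h]
      have h1 := idx_succ h
      have h2 : idx r (X + 1) < 2 ^ n := idx_lt hr hX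
      have h3 : Rc n (idx r X) (idx r Y) = Lc n (idx r (X + 1)) (idx r Y) := by
        unfold Rc Lc
        rw [h1, hmatch n (idx r X) (idx r Y), ← od_succ]
        intro hd
        rw [h1] at h2
        exact absurd (Nat.le_of_dvd (Nat.succ_pos _) hd) (not_le.2 h2)
      rw [h3]

theorem vF (n r X Y : ℕ) (hr : r < 2 ^ n) (hY : Y + 1 < 2 ^ n + r) :
    UF n r X Y = DF n r X (Y + 1) := by
  unfold UF DF
  rw [dum_succ r Y]
  by_cases hX : dum r X = true
  · rw [if_pos hX, if_pos hX]
  · rw [if_neg hX, if_neg hX]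
    by_cases h : dum r (Y + 1) = true
    · rw [if_pos h, idx_succ_dum h]
    · rw [if_neg h]
      have h1 := idx_succ h
      have h2 : idx r (Y + 1) < 2 ^ n := idx_lt hr hY
      have h3 : Uc n (idx r X) (idx r Y) = Dc n (idx r X) (idx r (Y + 1)) := by
        unfold Uc Dc
        rw [h1, vmatch n (idx r X) (idx r Y), ← od_succ]
        intro hd
        rw [h1] at h2
        exact absurd (Nat.le_of_dvd (Nat.succ_pos _) hd) (not_le.2 h2)
      rw [h3]

/-- the second exceptional row or column -/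
def yy (n r : ℕ) : ℕ := if 2 ^ n < 2 * r then 2 ^ n else r + 2 ^ n / 2

theorem exc {n r Y : ℕ} (h : ¬ dum r Y = true) (h1 : Y ≠ 0) (h2 : Y ≠ yy n r) :
    idx r Y ≠ 0 ∧ 2 * idx r Y ≠ 2 ^ n := by
  unfold dum at h
  have h3 : ¬ (Y < 2 * r ∧ Y % 2 = 1) := fun hc => h (decide_eq_true hc)
  unfold yy at h2
  unfold idx
  split_ifs at * <;> omega

theorem idx_last {n r : ℕ} (hr : r < 2 ^ n) : idx r (2 ^ n + r - 1) = 2 ^ n - 1 := by
  unfold idx
  rw [if_neg (by omega)]
  omega

theorem dum_last {n r : ℕ} (hr : r < 2 ^ n) : dum r (2 ^ n + r - 1) = false := by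
  unfold dum
  exact decide_eq_false (by omega)

theorem dum_zero (r : ℕ) : dum r 0 = false := by
  unfold dum
  exact decide_eq_false (by omega)

theorem dum'_zero (r : ℕ) : dum' r 0 = false := by
  unfold dum'
  exact decide_eq_false (by omega)

theorem idx_zero (r : ℕ) : idx r 0 = 0 := by
  unfold idx
  split_ifs <;> omega

theorem od_last {n y : ℕ} (h : y < 2 ^ n) (h0 : y ≠ 0) : od (2 ^ n - 1) = !(od 0) := by
  have hn : n ≠ 0 := by
    rintro rfl
    simp only [pow_zero] at h
    omega
  obtain ⟨m, rfl⟩ := Nat.exists_eq_succ_of_ne_zero hn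
  have hm : 1 ≤ 2 ^ m := Nat.one_le_two_pow
  have h1 : (2 ^ m.succ - 1) % 2 = 1 := by rw [pow_succ]; omega
  unfold od
  rw [h1]
  decide

theorem hFw (n r Y : ℕ) (hr : r < 2 ^ n) (hY : Y < 2 ^ n + r) (h0 : Y ≠ 0) (h2 : Y ≠ yy n r) :
    RF n r (2 ^ n + r - 1) Y = LF n r 0 Y := by
  unfold RF LF
  rw [dum_last hr, dum'_zero, dum_zero, idx_last hr, idx_zero]
  by_cases h : dum r Y = true
  · rw [if_pos h, if_pos h]
  · rw [if_neg h, if_neg h, if_neg (by decide)]
    obtain ⟨e1, e2⟩ := exc (n := n) h h0 h2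
    have h3 : Rc n (2 ^ n - 1) (idx r Y) = Lc n 0 (idx r Y) := by
      unfold Rc Lc
      rw [hwrap n (idx r Y) (idx_lt hr hY) e1 e2, od_last (idx_lt hr hY) e1]
    rw [h3]

theorem vFw (n r X : ℕ) (hr : r < 2 ^ n) (hX : X < 2 ^ n + r) (h0 : X ≠ 0) (h2 : X ≠ yy n r) :
    UF n r X (2 ^ n + r - 1) = DF n r X 0 := by
  unfold UF DF
  rw [dum_last hr, dum'_zero, dum_zero, idx_last hr, idx_zero]
  by_cases h : dum r X = true
  · rw [if_pos h, if_pos h]
  · rw [if_neg h, if_neg h, if_neg (by decide)]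
    obtain ⟨e1, e2⟩ := exc (n := n) h h0 h2
    have h3 : Uc n (idx r X) (2 ^ n - 1) = Dc n (idx r X) 0 := by
      unfold Uc Dc
      rw [vwrap n (idx r X) (idx_lt hr hX) e1 e2, od_last (idx_lt hr hX) e1]
    rw [h3]

/-- The configuration. -/
def cfg (n r : ℕ) (L : ℕ) (u : ZMod L × ZMod L) : Tile :=
  ⟨(LF n r u.1.val u.2.val, RF n r u.1.val u.2.val, DF n r u.1.val u.2.val, UF n r u.1.val u.2.val),
    ft n r _ _⟩

theorem val_succ {L : ℕ} [NeZero L] (x : ZMod L) :
    (x.val + 1 < L ∧ (x + 1).val = x.val + 1) ∨ (x.val = L - 1 ∧ (x + 1).val = 0) := by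
  have h : (x + 1).val = (x.val + 1) % L := by
    rw [ZMod.val_add, ZMod.val_one_eq_one_mod, Nat.add_mod_mod]
  have hx : x.val < L := ZMod.val_lt x
  rcases Nat.lt_or_ge (x.val + 1) L with h1 | h1
  · left
    exact ⟨h1, by rw [h, Nat.mod_eq_of_lt h1]⟩
  · right
    have h2 : x.val + 1 = L := by omega
    exact ⟨by omega, by rw [h, h2, Nat.mod_self]⟩

/-- The number of defects of a configuration. -/
def defects {L : ℕ} [NeZero L] (c : ZMod L × ZMod L → Tile) : ℕ :=
  ∑ u : ZMod L × ZMod L, ((if (c u).ri = (c (u.1 + 1, u.2)).le then 0 else 1) +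
    (if (c u).up = (c (u.1, u.2 + 1)).dn then 0 else 1))

theorem exists_cfg (L : ℕ) [NeZero L] : ∃ c : ZMod L × ZMod L → Tile, defects c ≤ 4 := by
  classical
  obtain ⟨n, r, hr, hL⟩ : ∃ n r : ℕ, r < 2 ^ n ∧ L = 2 ^ n + r := by
    refine ⟨Nat.log 2 L, L - 2 ^ (Nat.log 2 L), ?_, ?_⟩
    · have h1 : L < 2 ^ (Nat.log 2 L + 1) := Nat.lt_pow_succ_log_self (by norm_num) L
      rw [pow_succ] at h1
      omega
    · have h1 : 2 ^ Nat.log 2 L ≤ L := Nat.pow_log_le_self 2 (NeZero.ne L)
      omega
  refine ⟨cfg n r L, ?_⟩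
  unfold defects
  rw [sum_add_distrib]
  have hL' : L - 1 = 2 ^ n + r - 1 := by omega
  have key : ∀ (P : ZMod L × ZMod L → Prop) [DecidablePred P] (f : ℕ → ZMod L × ZMod L),
      (∀ u, ¬ P u → u = f 0 ∨ u = f (yy n r)) →
      ∑ u : ZMod L × ZMod L, (if P u then 0 else 1) ≤ 2 := by
    intro P _ f h
    have h1 : ∑ u : ZMod L × ZMod L, (if P u then 0 else 1) ≤
        ∑ u ∈ ({f 0, f (yy n r)} : Finset (ZMod L × ZMod L)), 1 := by
      rw [← Finset.sum_subset (s₁ := {f 0, f (yy n r)}) (subset_univ _)]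
      · refine sum_le_sum fun u _ => ?_
        split_ifs <;> omega
      · intro u _ hu
        by_cases hp : P u
        · rw [if_pos hp]
        · exfalso
          apply hu
          rcases h u hp with h' | h'
          · rw [h']; simp
          · rw [h']; simp
    refine h1.trans ?_
    rw [sum_const, smul_eq_mul, mul_one]
    exact card_le_two
  have hh := key (fun u => (cfg n r L u).ri = (cfg n r L (u.1 + 1, u.2)).le)
    (fun y => (((L - 1 : ℕ) : ZMod L), (y : ZMod L))) (by
      rintro ⟨x, y⟩ hu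
      by_contra hcon
      apply hu
      show RF n r x.val y.val = LF n r (x + 1).val y.val
      have hy : y.val < L := ZMod.val_lt y
      rcases val_succ x with ⟨h1, h2⟩ | ⟨h1, h2⟩
      · rw [h2]
        exact hF n r _ _ hr (by omega)
      · rw [h2, h1, hL']
        have hx : x = ((L - 1 : ℕ) : ZMod L) := by rw [← h1]; exact (ZMod.natCast_zmod_val x).symm
        have hy1 : ((y.val : ℕ) : ZMod L) = y := ZMod.natCast_zmod_val y
        refine hFw n r _ hr (by omega) ?_ ?_
        · intro h0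
          apply hcon
          left
          rw [← h0, hy1, ← hx]
        · intro h0
          apply hcon
          right
          rw [← h0, hy1, ← hx])
  have hv := key (fun u => (cfg n r L u).up = (cfg n r L (u.1, u.2 + 1)).dn)
    (fun x => ((x : ZMod L), ((L - 1 : ℕ) : ZMod L))) (by
      rintro ⟨x, y⟩ hu
      by_contra hcon
      apply hu
      show UF n r x.val y.val = DF n r x.val (y + 1).val
      have hx : x.val < L := ZMod.val_lt x
      rcases val_succ y with ⟨h1, h2⟩ | ⟨h1, h2⟩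
      · rw [h2]
        exact vF n r _ _ hr (by omega)
      · rw [h2, h1, hL']
        have hy : y = ((L - 1 : ℕ) : ZMod L) := by rw [← h1]; exact (ZMod.natCast_zmod_val y).symm
        have hx1 : ((x.val : ℕ) : ZMod L) = x := ZMod.natCast_zmod_val x
        refine vFw n r _ hr (by omega) ?_ ?_
        · intro h0
          apply hcon
          left
          rw [← h0, hx1, ← hy]
        · intro h0
          apply hcon
          right
          rw [← h0, hx1, ← hy])
  omega

/-- Every configuration has a defect. -/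
theorem defects_ne_zero {L : ℕ} [NeZero L] (c : ZMod L × ZMod L → Tile) : defects c ≠ 0 := by
  classical
  intro h
  unfold defects at h
  rw [sum_eq_zero_iff] at h
  refine no_ftiling (Z := ZMod L × ZMod L) (fun z => (z.1 + 1, z.2)) (fun z => (z.1, z.2 + 1))
    (fun z => rfl) ⟨fun z => (c z).le, fun z => (c z).ri, fun z => (c z).dn, fun z => (c z).up,
      fun z => (c z).2, fun z => ?_, fun z => ?_⟩
  · have h1 := h z (mem_univ z)
    by_contra hcon
    rw [if_neg hcon] at h1
    omega
  · have h1 := h z (mem_univ z)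
    by_contra hcon
    rw [if_neg hcon] at h1
    omega

end Pool.Agent.H995.PS
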